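import Pool.Agent.Lib.MP_ff4305_al.Construct

/-!
The word problem of (finitely generated subgroups of) the group `K` is solvable.
-/

namespace Pool.Agent.MP_ff4305_al

open FreeGroup (invRev)

section reduce

variable {B : Type} [DecidableEq B]

/-- one step of free reduction -/
def rstep (x : B × Bool) (s : List (B × Bool)) : List (B × Bool) :=
  List.casesOn s [x] fun y l => if x.1 = y.1 ∧ x.2 = !y.2 then l else x :: y :: l

theorem reduce_eq_foldr (L : List (B × Bool)) : FreeGroup.reduce L = L.foldr rstep [] := by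
  induction L with
  | nil => rfl
  | cons x L ih =>
    rw [FreeGroup.reduce.cons, List.foldr_cons, ← ih]
    cases FreeGroup.reduce L <;> rfl

theorem primrec_reduce [Primcodable B] :
    Primrec (FreeGroup.reduce : List (B × Bool) → List (B × Bool)) := by
  have h1 : Primrec₂ (fun (_ : List (B × Bool)) (p : (B × Bool) × List (B × Bool)) =>
      rstep p.1 p.2) := by
    have hx : Primrec (fun r : (List (B × Bool) × ((B × Bool) × List (B × Bool))) × 
        ((B × Bool) × List (B × Bool)) => r.1.2.1) :=
      Primrec.fst.comp (Primrec.snd.comp Primrec.fst)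
    have hy : Primrec (fun r : (List (B × Bool) × ((B × Bool) × List (B × Bool))) × 
        ((B × Bool) × List (B × Bool)) => r.2.1) := Primrec.fst.comp Primrec.snd
    have hl : Primrec (fun r : (List (B × Bool) × ((B × Bool) × List (B × Bool))) × 
        ((B × Bool) × List (B × Bool)) => r.2.2) := Primrec.snd.comp Primrec.snd
    have h2 : Primrec₂ (fun (q : List (B × Bool) × ((B × Bool) × List (B × Bool)))
        (r : (B × Bool) × List (B × Bool)) =>
        if q.2.1.1 = r.1.1 ∧ q.2.1.2 = !r.1.2 then r.2 else q.2.1 :: r.1 :: r.2) := by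
      apply Primrec.ite
      · apply PrimrecPred.and
        · exact Primrec.eq.comp (Primrec.fst.comp hx) (Primrec.fst.comp hy)
        · exact Primrec.eq.comp (Primrec.snd.comp hx) (Primrec.not.comp (Primrec.snd.comp hy))
      · exact hl
      · exact Primrec.list_cons.comp hx (Primrec.list_cons.comp hy hl)
    have h3 := Primrec.list_casesOn
      (f := fun q : List (B × Bool) × ((B × Bool) × List (B × Bool)) => q.2.2)
      (g := fun q : List (B × Bool) × ((B × Bool) × List (B × Bool)) => [q.2.1])
      (h := fun q r => if q.2.1.1 = r.1.1 ∧ q.2.1.2 = !r.1.2 then r.2 else q.2.1 :: r.1 :: r.2)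
      (Primrec.snd.comp Primrec.snd)
      (Primrec.list_cons.comp (Primrec.fst.comp Primrec.snd) (Primrec.const [])) h2
    exact h3
  have h2 := Primrec.list_foldr (f := fun L : List (B × Bool) => L)
    (g := fun _ : List (B × Bool) => ([] : List (B × Bool)))
    (h := fun _ p => rstep p.1 p.2) Primrec.id (Primrec.const []) h1
  exact h2.of_eq fun L => (reduce_eq_foldr L).symm

end reduce

section wp

variable {J B X : Type} [DecidableEq B] {σ : Equiv.Perm J} (θ : X → KG B σ)

/-- value of a letter -/
def lv (a : X × Bool) : KG B σ := ev θ [a]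

/-- one step of the computation of a component -/
def cstep (s : J × Word B) (a : X × Bool) : J × Word B :=
  ((σ ^ (lv θ a).n) s.1, s.2 ++ ((lv θ a).f s.1).toWord)

theorem cstep_fold (w : Word X) : ∀ s : J × Word B,
    FreeGroup.mk (w.foldl (cstep θ) s).2 = FreeGroup.mk s.2 * (ev θ w).f s.1 := by
  induction w with
  | nil =>
    intro s
    rw [ev_nil, KG.one_f, mul_one]; rfl
  | cons a w ih =>
    intro s
    rw [List.foldl_cons, ih, ev_cons, KG.mul_f]
    show FreeGroup.mk (s.2 ++ ((lv θ a).f s.1).toWord) * _ = _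
    rw [← FreeGroup.mul_mk, FreeGroup.mk_toWord, mul_assoc]
    rfl

/-- a component of the value of a word -/
def comp (j : J) (w : Word X) : Word B := (w.foldl (cstep θ) (j, [])).2

theorem mk_comp (j : J) (w : Word X) : FreeGroup.mk (comp θ j w) = (ev θ w).f j := by
  rw [comp, cstep_fold]
  show FreeGroup.mk [] * _ = _
  rw [← FreeGroup.one_eq_mk, one_mul]

/-- positive part of the degree -/
def cp (w : Word X) : ℕ := w.foldr (fun a s => (lv θ a).n.toNat + s) 0
/-- negative part of the degree -/
def cn (w : Word X) : ℕ := w.foldr (fun a s => (-(lv θ a).n).toNat + s) 0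

omit [DecidableEq B] in
theorem deg_eq (w : Word X) : (ev θ w).n = (cp θ w : ℤ) - cn θ w := by
  induction w with
  | nil => rw [ev_nil, KG.one_n]; rfl
  | cons a w ih =>
    rw [ev_cons, KG.mul_n, ih]
    show (lv θ a).n + _ = (((lv θ a).n.toNat + cp θ w : ℕ) : ℤ) - ((-(lv θ a).n).toNat + cn θ w : ℕ)
    omega

theorem ev_eq_iff (u v : Word X) : ev θ u = ev θ v ↔
    (∀ j : J, FreeGroup.reduce (comp θ j u) = FreeGroup.reduce (comp θ j v)) ∧
      cp θ u + cn θ v = cp θ v + cn θ u := by
  constructor
  · intro h
    refine ⟨?_, ?_⟩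
    · intro j
      have h1 : FreeGroup.mk (comp θ j u) = FreeGroup.mk (comp θ j v) := by
        rw [mk_comp, mk_comp, h]
      have := congrArg FreeGroup.toWord h1
      rwa [FreeGroup.toWord_mk, FreeGroup.toWord_mk] at this
    · have h1 := deg_eq θ u
      have h2 := deg_eq θ v
      rw [h] at h1
      omega
  · rintro ⟨h1, h2⟩
    apply KG.ext'
    · intro j
      rw [← mk_comp, ← mk_comp]
      apply FreeGroup.toWord_injective
      rw [FreeGroup.toWord_mk, FreeGroup.toWord_mk]
      exact h1 j
    · rw [deg_eq, deg_eq]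
      omega

theorem primrec_ev_eq [Primcodable B] [Primcodable J] [Finite J] [Primcodable X] [Finite X] :
    PrimrecPred (fun p : Word X × Word X => ev θ p.1 = ev θ p.2) := by
  have hstep : Primrec₂ (fun (s : J × Word B) (a : X × Bool) => cstep θ s a) := by
    have h1 : Primrec (fun q : J × (X × Bool) => (σ ^ (lv θ q.2).n) q.1) := Primrec.dom_finite _
    have h2 : Primrec (fun q : J × (X × Bool) => ((lv θ q.2).f q.1).toWord) :=
      Primrec.dom_finite _
    have hj : Primrec (fun r : (J × Word B) × (X × Bool) => (r.1.1, r.2)) :=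
      (Primrec.fst.comp Primrec.fst).pair Primrec.snd
    have h3 : Primrec (fun r : (J × Word B) × (X × Bool) => (σ ^ (lv θ r.2).n) r.1.1) :=
      h1.comp hj
    have h4 : Primrec (fun r : (J × Word B) × (X × Bool) => ((lv θ r.2).f r.1.1).toWord) :=
      h2.comp hj
    exact h3.pair (Primrec.list_append.comp (Primrec.snd.comp Primrec.fst) h4)
  have hcomp : Primrec₂ (fun (j : J) (w : Word X) => comp θ j w) := by
    have h := Primrec.list_foldl (f := fun q : J × Word X => q.2)
      (g := fun q : J × Word X => ((q.1, []) : J × Word B))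
      (h := fun _ p => cstep θ p.1 p.2) Primrec.snd
      (Primrec.fst.pair (Primrec.const []))
      (hstep.comp₂ (Primrec.fst.comp₂ Primrec₂.right) (Primrec.snd.comp₂ Primrec₂.right))
    exact Primrec.snd.comp h
  have hcp : Primrec (fun w : Word X => cp θ w) := by
    have h1 : Primrec (fun a : X × Bool => (lv θ a).n.toNat) := Primrec.dom_finite _
    have h := Primrec.list_foldr (f := fun w : Word X => w) (g := fun _ : Word X => 0)
      (h := fun _ p => (lv θ p.1).n.toNat + p.2) Primrec.id (Primrec.const 0)
      (Primrec.nat_add.comp₂ (h1.comp₂ (Primrec.fst.comp₂ Primrec₂.right))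
        (Primrec.snd.comp₂ Primrec₂.right))
    exact h
  have hcn : Primrec (fun w : Word X => cn θ w) := by
    have h1 : Primrec (fun a : X × Bool => (-(lv θ a).n).toNat) := Primrec.dom_finite _
    have h := Primrec.list_foldr (f := fun w : Word X => w) (g := fun _ : Word X => 0)
      (h := fun _ p => (-(lv θ p.1).n).toNat + p.2) Primrec.id (Primrec.const 0)
      (Primrec.nat_add.comp₂ (h1.comp₂ (Primrec.fst.comp₂ Primrec₂.right))
        (Primrec.snd.comp₂ Primrec₂.right))
    exact h
  obtain ⟨l, _, hl⟩ := Finite.exists_univ_list J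
  have hR : PrimrecRel (fun (j : J) (p : Word X × Word X) =>
      FreeGroup.reduce (comp θ j p.1) = FreeGroup.reduce (comp θ j p.2)) := by
    apply PrimrecRel.comp₂ Primrec.eq
    · exact primrec_reduce.comp₂ (hcomp.comp₂ Primrec₂.left (Primrec.fst.comp₂ Primrec₂.right))
    · exact primrec_reduce.comp₂ (hcomp.comp₂ Primrec₂.left (Primrec.snd.comp₂ Primrec₂.right))
  have hall : PrimrecPred (fun p : Word X × Word X => ∀ j ∈ l,
      FreeGroup.reduce (comp θ j p.1) = FreeGroup.reduce (comp θ j p.2)) :=
    PrimrecRel.comp (hR.forall_mem_list) (Primrec.const l) Primrec.id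
  have hdeg : PrimrecPred (fun p : Word X × Word X =>
      cp θ p.1 + cn θ p.2 = cp θ p.2 + cn θ p.1) :=
    Primrec.eq.comp (Primrec.nat_add.comp (hcp.comp Primrec.fst) (hcn.comp Primrec.snd))
      (Primrec.nat_add.comp (hcp.comp Primrec.snd) (hcn.comp Primrec.fst))
  refine (hall.and hdeg).of_eq fun p => ?_
  rw [ev_eq_iff]
  constructor
  · rintro ⟨h1, h2⟩; exact ⟨fun j => h1 j (hl j), h2⟩
  · rintro ⟨h1, h2⟩; exact ⟨fun j _ => h1 j, h2⟩

end wp

end Pool.Agent.MP_ff4305_al
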