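import Pool.Agent.Lib.MP_ff4305_al.Encode
import Pool.Agent.Lib.MP_ff4305_al.GroupWP

/-!
From an undecidable reachability problem to a special inverse monoid.
-/

namespace Pool.Agent.MP_ff4305_al

open FreeGroup (invRev)

theorem computable_invRev {X : Type} [Primcodable X] : Primrec (invRev : Word X → Word X) := by
  have h : Primrec (fun w : Word X => (w.map fun g : X × Bool => (g.1, !g.2)).reverse) :=
    Primrec.list_reverse.comp (Primrec.list_map Primrec.id
      ((Primrec.fst.comp Primrec.snd).pair (Primrec.not.comp (Primrec.snd.comp Primrec.snd))))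
  exact h

theorem primrec_pos {X : Type} [Primcodable X] : Primrec (pos : List X → Word X) := by
  have h : Primrec (fun w : List X => w.map fun a => (a, true)) :=
    Primrec.list_map Primrec.id (Primrec.snd.pair (Primrec.const true))
  exact h

section vals

variable {ι A : Type} [DecidableEq ι]

theorem single_mk4 {B : Type} (k : ι) (x : FreeGroup B) :
    (Pi.mulSingle (true, k, true) x : Bool × ι × Bool → FreeGroup B)
      = mk4 (Pi.mulSingle k x) 1 1 1 := by
  funext ⟨s, k', t⟩
  by_cases h : ((s, k', t) : Bool × ι × Bool) = (true, k, true)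
  · rw [h]
    simp [mk4]
  · rw [Pi.mulSingle_eq_of_ne h]
    cases s <;> cases t
    · rfl
    · rfl
    · rfl
    · have hk : k' ≠ k := by
        rintro rfl
        exact h rfl
      show 1 = (Pi.mulSingle k x : ι → FreeGroup B) k'
      rw [Pi.mulSingle_eq_of_ne hk]

theorem list_val {B D : Type} (E : Extra (Bool × ι × Bool) B D) (k : ι) (l : List B) :
    ((l.map fun b => (Gen.C (true, k, true) b true : Gen (Bool × ι × Bool) B D)).map
      (θ₀ (flipσ ι) E)).prod = ⟨mk4 (Pi.mulSingle k (P l)) 1 1 1, 2 * l.length⟩ := by
  induction l with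
  | nil =>
    rw [P_nil, Pi.mulSingle_one]
    apply KG.ext'
    · rintro ⟨s, k, t⟩
      cases s <;> cases t <;> rfl
    · rfl
  | cons b l ih =>
    rw [List.map_cons, List.map_cons, List.prod_cons, ih]
    have h1 : θ₀ (flipσ ι) E (Gen.C (true, k, true) b true)
        = ⟨mk4 (Pi.mulSingle k (FreeGroup.of b)) 1 1 1, 2⟩ := by
      rw [← single_mk4]; rfl
    rw [h1]
    apply KG.ext'
    · intro j
      rw [KG.mul_f]
      have h2 : (flipσ ι) ^ (2 : ℤ) = 1 := pow_two_eq flipσ_flipσ
      show _ * mk4 (Pi.mulSingle k (P l)) 1 1 1 (((flipσ ι) ^ (2 : ℤ)) j) = _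
      rw [h2, P_cons, Pi.mulSingle_mul]
      obtain ⟨s, k', t⟩ := j
      cases s <;> cases t
      · exact one_mul 1
      · exact one_mul 1
      · exact one_mul 1
      · rfl
    · rw [KG.mul_n]
      show (2 : ℤ) + 2 * (l.length : ℤ) = 2 * ((b :: l).length : ℤ)
      rw [List.length_cons]; push_cast; ring

end vals

theorem main_of (m q : ℕ) (R : List ((Fin m → List (Fin q)) × (Fin m → List (Fin q))))
    (fin base : Fin m → List (Fin q)) (k0 : Fin m) (f : ℕ → List (Fin q)) (hf : Computable f)
    (hund : ¬ ComputablePred (fun n : ℕ =>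
      Relation.ReflTransGen (MStep R) (Function.update base k0 (f n)) fin)) :
    ∃ (n : ℕ) (rels : Set (Word (Fin n))), rels.Finite ∧ IsEUnitary (SpecialInv rels) ∧
      RightReversible (PrefMon rels) ∧ GrpWPSolvable rels ∧ ¬ InvWPSolvable rels := by
  have hD : Finite (Ext (Fin m) (Fin q) R.length) := by
    let g : Ext (Fin m) (Fin q) R.length →
        ((Fin m × Option (Fin q)) ⊕ ((Fin m × Fin q) ⊕ Fin R.length) ⊕ Unit) := fun y =>
      match y with
      | .δ k b => Sum.inl (k, b)
      | .τ (.cp k a) => Sum.inr (Sum.inl (Sum.inl (k, a)))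
      | .τ (.rl i) => Sum.inr (Sum.inl (Sum.inr i))
      | .γ => Sum.inr (Sum.inr ())
    apply Finite.of_injective g
    intro y z h
    rcases y with ⟨k, b⟩ | (⟨k, a⟩ | i) | _ <;> rcases z with ⟨k', b'⟩ | (⟨k', a'⟩ | i') | _ <;>
      simp_all [g]
  have hGen : Finite (Gen (Bool × Fin m × Bool) (Option (Fin q)) (Ext (Fin m) (Fin q) R.length)) :=
    gen_finite
  obtain ⟨N, ⟨e⟩⟩ := Finite.exists_equiv_fin
    (Gen (Bool × Fin m × Bool) (Option (Fin q)) (Ext (Fin m) (Fin q) R.length))
  have hσ : ∀ j, flipσ (Fin m) (flipσ (Fin m) j) = j := flipσ_flipσ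
  obtain ⟨E, hE⟩ := exists_extra (σ := flipσ (Fin m)) hσ (extVal R fin) (extDeg R)
  have hG := good_of (flipσ (Fin m)) E e hσ
  refine ⟨N, relsOf (flipσ (Fin m)) E e, relsOf_finite _ _ _, hG.isEUnitary,
    hG.rightReversible, ?_, ?_⟩
  · obtain ⟨_, h⟩ := primrec_ev_eq (θX (flipσ (Fin m)) E e)
    have h1 : ComputablePred (fun p : Word (Fin N) × Word (Fin N) =>
        ev (θX (flipσ (Fin m)) E e) p.1 = ev (θX (flipσ (Fin m)) E e) p.2) :=
      ComputablePred.computable_iff.mpr ⟨_, h.to_comp, by simp⟩
    refine ComputablePred.of_eq h1 ?_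
    rintro ⟨u, v⟩
    exact ⟨fun h => hG.grp_eq h, fun h => hG.ev_of_grp h⟩
  · intro hwp
    apply hund
    -- the fixed part of the initial word
    obtain ⟨W0, hW0⟩ := exists_word (σ := flipσ (Fin m)) (B := Option (Fin q)) hσ
      (mk4 (fun k => if k = k0 then 1 else P (hash (base k))) 1 1 1)
    let C0 : List (Fin N) := (W0.map fun a =>
      (Gen.C a.1 a.2.1 a.2.2 : Gen _ _ (Ext (Fin m) (Fin q) R.length))).map e
    let tab : Option (Fin q) → Fin N := fun b => e (Gen.C (true, k0, true) b true)
    let core : ℕ → List (Fin N) := fun n => C0 ++ (hash (f n)).map tab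
    let xx : ℕ → List (Fin N) := fun n => core n ++ [e .T]
    let zz : ℕ → List (Fin N) := fun n => (e .c) :: (core n).map (fun _ => e .c)
    have hval0 : ev (θX (flipσ (Fin m)) E e) (pos C0)
        = ⟨mk4 (fun k => if k = k0 then 1 else P (hash (base k))) 1 1 1, 2 * W0.length⟩ := by
      rw [ev_pos_map, List.map_map]
      exact hW0
    have hval1 : ∀ n, ev (θX (flipσ (Fin m)) E e) (pos ((hash (f n)).map tab))
        = ⟨mk4 (Pi.mulSingle k0 (P (hash (f n)))) 1 1 1, 2 * (hash (f n)).length⟩ := by
      intro n
      have h1 : (hash (f n)).map tab = ((hash (f n)).map fun b => (Gen.C (true, k0, true) b true :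
          Gen (Bool × Fin m × Bool) (Option (Fin q)) (Ext (Fin m) (Fin q) R.length))).map e := by
        rw [List.map_map]; rfl
      rw [h1, ev_pos_map, list_val]
    have hcore : ∀ n, ev (θX (flipσ (Fin m)) E e) (pos (core n))
        = ⟨mk4 (fun k => P (hash (Function.update base k0 (f n) k))) 1 1 1,
            2 * (core n).length⟩ := by
      intro n
      show ev (θX (flipσ (Fin m)) E e) (pos (C0 ++ (hash (f n)).map tab)) = _
      rw [ev_pos_append, hval0, hval1]
      apply KG.ext'
      · intro j
        rw [KG.mul_f, pow_even hσ]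
        obtain ⟨s, k, t⟩ := j
        cases s <;> cases t
        · exact one_mul 1
        · exact one_mul 1
        · exact one_mul 1
        · show (if k = k0 then 1 else P (hash (base k))) *
            (Pi.mulSingle k0 (P (hash (f n))) : Fin m → FreeGroup (Option (Fin q))) k
            = P (hash (Function.update base k0 (f n) k))
          by_cases hk : k = k0
          · subst hk
            simp
          · rw [Pi.mulSingle_eq_of_ne hk, Function.update_of_ne hk, if_neg hk, mul_one]
      · rw [KG.mul_n]
        show 2 * (W0.length : ℤ) + 2 * ((hash (f n)).length : ℤ) = 2 * ((core n).length : ℤ)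
        simp only [core, C0, List.length_append, List.length_map]
        push_cast; ring
    have hzz : ∀ n, ev (θX (flipσ (Fin m)) E e) (pos (zz n))
        = kc (flipσ (Fin m)) ^ ((core n).length + 1) := by
      intro n
      have h1 : zz n = (List.replicate ((core n).length + 1)
          (Gen.c : Gen (Bool × Fin m × Bool) (Option (Fin q))
            (Ext (Fin m) (Fin q) R.length))).map e := by
        simp only [zz, List.replicate_succ, List.map_const', List.map_cons, List.map_replicate]
      rw [h1, ev_pos_map, List.map_replicate, List.prod_replicate]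
      rfl
    have hxx : ∀ n, ev (θX (flipσ (Fin m)) E e) (pos (xx n))
        = ⟨mk4 (fun k => P (hash (Function.update base k0 (f n) k))) 1 1 1, 1⟩
          * kc (flipσ (Fin m)) ^ ((core n).length + 1) := by
      intro n
      show ev (θX (flipσ (Fin m)) E e) (pos (core n ++ [e .T])) = _
      rw [ev_pos_append, hcore, kc_pow]
      have h1 : ev (θX (flipσ (Fin m)) E e) (pos [e .T]) = kT (flipσ (Fin m)) := by
        rw [ev_pos_prod, List.map_singleton, List.prod_singleton, θX, Equiv.symm_apply_apply]
        rfl
      rw [h1]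
      apply KG.ext'
      · intro j
        rw [KG.mul_f, KG.mul_f]
        rfl
      · rw [KG.mul_n, KG.mul_n]
        show 2 * ((core n).length : ℤ) + 3 = 1 + 2 * (((core n).length + 1 : ℕ) : ℤ)
        push_cast; ring
    let y : ℕ → Word (Fin N) := fun n => pos (xx n) ++ invRev (pos (zz n))
    have hy : ∀ n, ev (θX (flipσ (Fin m)) E e) (y n)
        = ⟨mk4 (fun k => P (hash (Function.update base k0 (f n) k))) 1 1 1, 1⟩ := by
      intro n
      show ev (θX (flipσ (Fin m)) E e) (pos (xx n) ++ invRev (pos (zz n))) = _
      rw [ev_append, ev_invRev, hxx, hzz, mul_inv_cancel_right]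
    have hiff : ∀ n, Relation.ReflTransGen (MStep R) (Function.update base k0 (f n)) fin ↔
        invMk (relsOf (flipσ (Fin m)) E e) (y n ++ invRev (y n))
          = invMk (relsOf (flipσ (Fin m)) E e) [] := by
      intro n
      rw [← mem_iff_reach hE, ← hy n, ← P0_eq (flipσ (Fin m)) E e]
      exact hG.mem_iff (xx n) (zz n)
    -- computability
    have hhash : Computable (fun n => hash (f n)) := by
      have h1 : Primrec (fun l : List (Fin q) => hash l) :=
        Primrec.list_append.comp (Primrec.list_map Primrec.id
          (Primrec.option_some.comp₂ Primrec₂.right)) (Primrec.const [none])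
      exact h1.to_comp.comp hf
    have hc : Computable core := by
      have h1 : Primrec (fun l : List (Option (Fin q)) => C0 ++ l.map tab) :=
        Primrec.list_append.comp (Primrec.const C0) (Primrec.list_map Primrec.id
          ((Primrec.dom_finite tab).comp₂ Primrec₂.right))
      exact h1.to_comp.comp hhash
    have hy' : Computable y := by
      have h1 : Primrec (fun l : List (Fin N) => pos (l ++ [e .T]) ++
          invRev (pos ((e .c) :: l.map (fun _ => e .c)))) := by
        apply Primrec.list_append.comp
        · exact primrec_pos.comp (Primrec.list_append.comp Primrec.id (Primrec.const [e .T]))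
        · exact computable_invRev.comp (primrec_pos.comp (Primrec.list_cons.comp
            (Primrec.const (e .c)) (Primrec.list_map Primrec.id (Primrec.const (e .c)).to₂)))
      exact h1.to_comp.comp hc
    have hg : Computable (fun n => ((y n ++ invRev (y n), []) : Word (Fin N) × Word (Fin N))) := by
      have h1 : Primrec (fun w : Word (Fin N) =>
          ((w ++ invRev w, []) : Word (Fin N) × Word (Fin N))) :=
        (Primrec.list_append.comp Primrec.id computable_invRev).pair (Primrec.const [])
      exact h1.to_comp.comp hy'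
    obtain ⟨F, hF, hFe⟩ := ComputablePred.computable_iff.mp hwp
    refine ComputablePred.computable_iff.mpr ⟨fun n => F (y n ++ invRev (y n), []),
      hF.comp hg, ?_⟩
    funext n
    have h1 := congrFun hFe (y n ++ invRev (y n), [])
    rw [← h1]
    exact propext (hiff n)

end Pool.Agent.MP_ff4305_al
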