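import Mathlib

/-!
The group `K`: a product of free groups extended by an infinite cyclic group which permutes the
factors, together with its padded generators, and homomorphisms out of it.
-/

namespace Pool.Agent.MP_ff4305_al

/-- a product of free groups (indexed by `J`) extended by `ℤ`, acting through the permutation
`σ` of the factors -/
@[ext] structure KG {J : Type} (B : Type) (σ : Equiv.Perm J) : Type where
  /-- the component in the product of free groups -/
  f : J → FreeGroup B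
  /-- the degree -/
  n : ℤ

namespace KG

variable {J B : Type} {σ : Equiv.Perm J}

instance : Mul (KG B σ) := ⟨fun x y => ⟨fun j => x.f j * y.f ((σ ^ x.n) j), x.n + y.n⟩⟩
instance : One (KG B σ) := ⟨⟨fun _ => 1, 0⟩⟩
instance : Inv (KG B σ) := ⟨fun x => ⟨fun j => (x.f ((σ ^ (-x.n)) j))⁻¹, -x.n⟩⟩

theorem mul_f (x y : KG B σ) (j : J) : (x * y).f j = x.f j * y.f ((σ ^ x.n) j) := rfl
theorem mul_n (x y : KG B σ) : (x * y).n = x.n + y.n := rfl
theorem one_f (j : J) : (1 : KG B σ).f j = 1 := rfl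
theorem one_n : (1 : KG B σ).n = 0 := rfl
theorem inv_f (x : KG B σ) (j : J) : (x⁻¹).f j = (x.f ((σ ^ (-x.n)) j))⁻¹ := rfl
theorem inv_n (x : KG B σ) : (x⁻¹).n = -x.n := rfl

theorem ext' {x y : KG B σ} (h : ∀ j, x.f j = y.f j) (h' : x.n = y.n) : x = y :=
  KG.ext (funext h) h'

instance : Group (KG B σ) :=
  Group.ofLeftAxioms
    (by
      intro a b c
      apply ext'
      · intro j
        simp only [mul_f, mul_n, mul_assoc]
        rw [add_comm, zpow_add, Equiv.Perm.mul_apply]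
      · simp only [mul_n, add_assoc])
    (by
      intro a
      apply ext'
      · intro j; simp [mul_f, one_f, one_n]
      · simp [mul_n, one_n])
    (by
      intro a
      apply ext'
      · intro j; simp [mul_f, inv_f, inv_n, one_f]
      · simp [mul_n, inv_n, one_n])

end KG

section generators

variable {J : Type} [DecidableEq J] (B D : Type) (σ : Equiv.Perm J)

/-- The alphabet: `c`, `T`, the padded letters `C j b ε`, and the extra generators `d x`. -/
inductive Gen (J B D : Type) : Type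
  | c : Gen J B D
  | T : Gen J B D
  | C (j : J) (b : B) (e : Bool) : Gen J B D
  | d (x : D) : Gen J B D

variable {B D}

/-- the element of the product of free groups given by a list of letters -/
def word (W : List (J × B × Bool)) (j : J) : FreeGroup B :=
  (W.map fun a => (Pi.mulSingle a.1 (FreeGroup.mk [(a.2.1, a.2.2)]) : J → FreeGroup B)).prod j

/-- data for the extra generators: a word, a number of `T`s and a number of `c⁻¹`s -/
structure Extra (J B D : Type) : Type where
  /-- the word -/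
  W : D → List (J × B × Bool)
  /-- the number of factors `T` -/
  t : D → ℕ
  /-- the number of factors `c⁻¹` -/
  N : D → ℕ

variable (E : Extra J B D)

/-- value of `c` -/
def kc : KG B σ := ⟨fun _ => 1, 2⟩
/-- value of `T` -/
def kT : KG B σ := ⟨fun _ => 1, 3⟩
/-- value of `C j b ε` -/
def kC (a : J × B × Bool) : KG B σ :=
  ⟨Pi.mulSingle a.1 (FreeGroup.mk [(a.2.1, a.2.2)]), 2⟩

/-- the values of the generators in the group `K` -/
def θ₀ : Gen J B D → KG B σ
  | .c => kc σ
  | .T => kT σ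
  | .C j b e => kC σ (j, b, e)
  | .d x => (((E.W x).map (kC σ)).prod * kT σ ^ E.t x) * (kc σ ^ E.N x)⁻¹

/-- the relations, as pairs of positive words -/
inductive GRel (E : Extra J B D) : List (Gen J B D) → List (Gen J B D) → Prop
  | cen (y : Gen J B D) : GRel E [.c, y] [y, .c]
  | inv (j : J) (b : B) (e : Bool) : GRel E [.C j b e, .C j b (!e)] [.c, .c]
  | comm (j j' : J) (b b' : B) (e e' : Bool) (h : j ≠ j') :
      GRel E [.C j b e, .C j' b' e'] [.C j' b' e', .C j b e]
  | flip (j : J) (b : B) (e : Bool) : GRel E [.T, .C j b e] [.C (σ j) b e, .T]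
  | sq : GRel E [.T, .T] [.c, .c, .c]
  | dfn (x : D) : GRel E (.d x :: List.replicate (E.N x) .c)
      ((E.W x).map (fun a => Gen.C a.1 a.2.1 a.2.2) ++ List.replicate (E.t x) .T)

end generators

section universal

variable {J B D : Type} [DecidableEq J] [Fintype J] {σ : Equiv.Perm J} (E : Extra J B D)

omit [Fintype J] in
theorem flip_single (hσ : ∀ j, σ (σ j) = j) {G : Type} [Group G] (j : J) (x : G) :
    (fun i => (Pi.mulSingle j x : J → G) (σ i)) = Pi.mulSingle (σ j) x := by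
  funext i
  by_cases h : i = σ j
  · subst h
    rw [hσ, Pi.mulSingle_eq_same, Pi.mulSingle_eq_same]
  · rw [Pi.mulSingle_eq_of_ne h, Pi.mulSingle_eq_of_ne]
    intro h'
    apply h
    rw [← h', hσ]

/-- Homomorphisms from `K` to a monoid `Q` in which the relations hold and `c` is invertible. -/
theorem exists_hom (hσ : ∀ j, σ (σ j) = j) {Q : Type} [Monoid Q] (v : Gen J B D → Q)
    (hrel : ∀ u w, GRel σ E u w → (u.map v).prod = (w.map v).prod) (hc : IsUnit (v .c)) :
    ∃ Ψ : KG B σ →* Q, ∀ y, Ψ (θ₀ σ E y) = v y := by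
  obtain ⟨c, hcv⟩ := hc
  have hcen : ∀ y, (c : Q) * v y = v y * c := by
    intro y
    have := hrel _ _ (GRel.cen y)
    simpa [hcv] using this
  have hcen' : ∀ y, (c⁻¹ : Qˣ) * v y = v y * (c⁻¹ : Qˣ) := by
    intro y
    have h1 : Commute (c : Q) (v y) := hcen y
    exact h1.units_inv_left
  have hinv : ∀ j b e, v (.C j b e) * v (.C j b (!e)) = c * c := by
    intro j b e
    have := hrel _ _ (GRel.inv j b e)
    simpa [hcv] using this
  have hcomm : ∀ j j' b b' e e', j ≠ j' →
      v (.C j b e) * v (.C j' b' e') = v (.C j' b' e') * v (.C j b e) := by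
    intro j j' b b' e e' h
    have := hrel _ _ (GRel.comm j j' b b' e e' h)
    simpa using this
  have hflip : ∀ j b e, v .T * v (.C j b e) = v (.C (σ j) b e) * v .T := by
    intro j b e
    have := hrel _ _ (GRel.flip j b e)
    simpa using this
  have hsq : v .T * v .T = c * c * c := by
    have := hrel _ _ GRel.sq
    simpa [hcv, mul_assoc] using this
  -- the units `x j b`
  have key : ∀ j b e, v (.C j b e) * (c⁻¹ : Qˣ) * (v (.C j b (!e)) * (c⁻¹ : Qˣ)) = 1 := by
    intro j b e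
    calc v (.C j b e) * (c⁻¹ : Qˣ) * (v (.C j b (!e)) * (c⁻¹ : Qˣ))
        = v (.C j b e) * ((c⁻¹ : Qˣ) * v (.C j b (!e))) * (c⁻¹ : Qˣ) := by
          simp only [mul_assoc]
      _ = (v (.C j b e) * v (.C j b (!e))) * ((c⁻¹ : Qˣ) * (c⁻¹ : Qˣ)) := by
          rw [hcen']; simp only [mul_assoc]
      _ = 1 := by
          rw [hinv]
          simp [mul_assoc]
  let x : J → B → Qˣ := fun j b =>
    ⟨v (.C j b true) * (c⁻¹ : Qˣ), v (.C j b false) * (c⁻¹ : Qˣ), key j b true, key j b false⟩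
  have hxval : ∀ j b, (x j b : Q) = v (.C j b true) * (c⁻¹ : Qˣ) := fun j b => rfl
  have hxinv : ∀ j b, (((x j b)⁻¹ : Qˣ) : Q) = v (.C j b false) * (c⁻¹ : Qˣ) := fun j b => rfl
  have hxcomm : ∀ j j' b b', j ≠ j' → Commute (x j b) (x j' b') := by
    intro j j' b b' h
    apply Units.ext
    rw [Units.val_mul, Units.val_mul, hxval, hxval]
    calc v (.C j b true) * (c⁻¹ : Qˣ) * (v (.C j' b' true) * (c⁻¹ : Qˣ))
        = v (.C j b true) * ((c⁻¹ : Qˣ) * v (.C j' b' true)) * (c⁻¹ : Qˣ) := by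
          simp only [mul_assoc]
      _ = (v (.C j b true) * v (.C j' b' true)) * ((c⁻¹ : Qˣ) * (c⁻¹ : Qˣ)) := by
          rw [hcen']; simp only [mul_assoc]
      _ = (v (.C j' b' true) * v (.C j b true)) * ((c⁻¹ : Qˣ) * (c⁻¹ : Qˣ)) := by
          rw [hcomm j j' b b' true true h]
      _ = v (.C j' b' true) * (v (.C j b true) * (c⁻¹ : Qˣ)) * (c⁻¹ : Qˣ) := by
          simp only [mul_assoc]
      _ = v (.C j' b' true) * ((c⁻¹ : Qˣ) * v (.C j b true)) * (c⁻¹ : Qˣ) := by rw [hcen']
      _ = v (.C j' b' true) * (c⁻¹ : Qˣ) * (v (.C j b true) * (c⁻¹ : Qˣ)) := by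
          simp only [mul_assoc]
  let φ : J → (FreeGroup B →* Qˣ) := fun j => FreeGroup.lift (x j)
  have hφcomm : Pairwise fun i j => ∀ a b, Commute (φ i a) (φ j b) := by
    intro i j hij a b
    have h1 : ∀ b0, Commute (φ i a) (x j b0) := by
      intro b0
      induction a using FreeGroup.induction_on with
      | C1 => rw [map_one]; exact Commute.one_left _
      | of a => 
        have : φ i (FreeGroup.of a) = x i a := FreeGroup.lift_apply_of
        rw [this]; exact hxcomm i j a b0 hij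
      | inv_of a h => rw [map_inv]; exact h.inv_left
      | mul a a' h h' => rw [map_mul]; exact h.mul_left h'
    induction b using FreeGroup.induction_on with
    | C1 => rw [map_one]; exact Commute.one_right _
    | of b => 
      have : φ j (FreeGroup.of b) = x j b := FreeGroup.lift_apply_of
      rw [this]; exact h1 b
    | inv_of b h => rw [map_inv]; exact h.inv_right
    | mul b b' h h' => rw [map_mul]; exact h.mul_right h'
  let Φ : (J → FreeGroup B) →* Qˣ := MonoidHom.noncommPiCoprod φ hφcomm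
  have hΦ : ∀ j y, Φ (Pi.mulSingle j y) = φ j y := fun j y =>
    MonoidHom.noncommPiCoprod_mulSingle φ j y
  -- the unit `S`
  have hS1 : v .T * (c⁻¹ : Qˣ) * (v .T * (c⁻¹ : Qˣ) * (c⁻¹ : Qˣ)) = 1 := by
    calc v .T * (c⁻¹ : Qˣ) * (v .T * (c⁻¹ : Qˣ) * (c⁻¹ : Qˣ))
        = v .T * ((c⁻¹ : Qˣ) * v .T) * (c⁻¹ : Qˣ) * (c⁻¹ : Qˣ) := by simp only [mul_assoc]
      _ = (v .T * v .T) * ((c⁻¹ : Qˣ) * (c⁻¹ : Qˣ) * (c⁻¹ : Qˣ)) := by
          rw [hcen']; simp only [mul_assoc]
      _ = 1 := by rw [hsq]; simp [mul_assoc]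
  have hS2 : v .T * (c⁻¹ : Qˣ) * (c⁻¹ : Qˣ) * (v .T * (c⁻¹ : Qˣ)) = 1 := by
    calc v .T * (c⁻¹ : Qˣ) * (c⁻¹ : Qˣ) * (v .T * (c⁻¹ : Qˣ))
        = v .T * (c⁻¹ : Qˣ) * ((c⁻¹ : Qˣ) * v .T) * (c⁻¹ : Qˣ) := by simp only [mul_assoc]
      _ = v .T * (c⁻¹ : Qˣ) * (v .T * (c⁻¹ : Qˣ) * (c⁻¹ : Qˣ)) := by
          rw [hcen']; simp only [mul_assoc]
      _ = 1 := hS1
  let S : Qˣ := ⟨v .T * (c⁻¹ : Qˣ), v .T * (c⁻¹ : Qˣ) * (c⁻¹ : Qˣ), hS1, hS2⟩
  have hSval : (S : Q) = v .T * (c⁻¹ : Qˣ) := rfl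
  have hSS : S * S = c := by
    apply Units.ext
    rw [Units.val_mul, hSval]
    calc v .T * (c⁻¹ : Qˣ) * (v .T * (c⁻¹ : Qˣ))
        = v .T * ((c⁻¹ : Qˣ) * v .T) * (c⁻¹ : Qˣ) := by simp only [mul_assoc]
      _ = (v .T * v .T) * ((c⁻¹ : Qˣ) * (c⁻¹ : Qˣ)) := by rw [hcen']; simp only [mul_assoc]
      _ = c := by rw [hsq]; simp [mul_assoc]
  have hSx : ∀ j b, S * x j b = x (σ j) b * S := by
    intro j b
    apply Units.ext
    rw [Units.val_mul, Units.val_mul, hxval, hxval, hSval]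
    calc v .T * (c⁻¹ : Qˣ) * (v (.C j b true) * (c⁻¹ : Qˣ))
        = v .T * ((c⁻¹ : Qˣ) * v (.C j b true)) * (c⁻¹ : Qˣ) := by simp only [mul_assoc]
      _ = (v .T * v (.C j b true)) * ((c⁻¹ : Qˣ) * (c⁻¹ : Qˣ)) := by
          rw [hcen']; simp only [mul_assoc]
      _ = v (.C (σ j) b true) * (v .T * (c⁻¹ : Qˣ)) * (c⁻¹ : Qˣ) := by
          rw [hflip]; simp only [mul_assoc]
      _ = v (.C (σ j) b true) * ((c⁻¹ : Qˣ) * v .T) * (c⁻¹ : Qˣ) := by rw [hcen']
      _ = v (.C (σ j) b true) * (c⁻¹ : Qˣ) * (v .T * (c⁻¹ : Qˣ)) := by simp only [mul_assoc]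
  have hSφ : ∀ j y, S * φ j y = φ (σ j) y * S := by
    intro j y
    have : (MulAut.conj S).toMonoidHom.comp (φ j) = φ (σ j) := by
      ext b
      show ((S * φ j (FreeGroup.of b) * S⁻¹ : Qˣ) : Q) = ((φ (σ j) (FreeGroup.of b) : Qˣ) : Q)
      have e1 : φ j (FreeGroup.of b) = x j b := FreeGroup.lift_apply_of
      have e2 : φ (σ j) (FreeGroup.of b) = x (σ j) b := FreeGroup.lift_apply_of
      rw [e1, e2, hSx, mul_inv_cancel_right]
    have h2 := DFunLike.congr_fun this y
    have h3 : S * φ j y * S⁻¹ = φ (σ j) y := h2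
    rw [← h3, inv_mul_cancel_right]
  let flipHom : (J → FreeGroup B) →* (J → FreeGroup B) :=
    { toFun := fun g j => g (σ j)
      map_one' := rfl
      map_mul' := fun _ _ => rfl }
  have hSΦ : ∀ g, S * Φ g = Φ (fun j => g (σ j)) * S := by
    intro g
    have : (MulAut.conj S).toMonoidHom.comp Φ = Φ.comp flipHom := by
      apply MonoidHom.pi_ext
      intro i y
      show S * Φ (Pi.mulSingle i y) * S⁻¹ = Φ (fun j => (Pi.mulSingle i y : J → FreeGroup B) (σ j))
      rw [flip_single hσ, hΦ, hΦ, hSφ, mul_inv_cancel_right]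
    have h2 := DFunLike.congr_fun this g
    have h3 : S * Φ g * S⁻¹ = Φ (fun j => g (σ j)) := h2
    rw [← h3, inv_mul_cancel_right]
  have hSΦ' : ∀ g, S⁻¹ * Φ g = Φ (fun j => g (σ⁻¹ j)) * S⁻¹ := by
    intro g
    have h1 := hSΦ (fun j => g (σ⁻¹ j))
    have h0 : (fun j => (fun j => g (σ⁻¹ j)) (σ j)) = g := by
      funext j
      show g (σ.symm (σ j)) = g j
      rw [Equiv.symm_apply_apply]
    rw [h0] at h1
    rw [inv_mul_eq_iff_eq_mul, ← mul_assoc, h1, mul_inv_cancel_right]
  have hpow : ∀ n : ℤ, ∀ g, S ^ n * Φ g = Φ (fun j => g ((σ ^ n) j)) * S ^ n := by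
    intro n
    induction n using Int.induction_on with
    | zero => intro g; simp
    | succ n ih =>
      intro g
      have e1 : S ^ ((n : ℤ) + 1) = S ^ (n : ℤ) * S := zpow_add_one S n
      rw [e1, mul_assoc, hSΦ, ← mul_assoc, ih, mul_assoc]
      congr 2
      funext j
      rw [add_comm, zpow_add, zpow_one, Equiv.Perm.mul_apply]
    | pred n ih =>
      intro g
      have e1 : S ^ (-(n : ℤ) - 1) = S ^ (-(n : ℤ)) * S⁻¹ := by
        rw [zpow_sub_one]
      rw [e1, mul_assoc, hSΦ', ← mul_assoc, ih, mul_assoc]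
      congr 2
      funext j
      rw [sub_eq_add_neg, add_comm, zpow_add, zpow_neg_one, Equiv.Perm.mul_apply]
  let Ψ : KG B σ →* Q :=
    { toFun := fun k => ((Φ k.f * S ^ k.n : Qˣ) : Q)
      map_one' := by
        have : Φ (1 : KG B σ).f = 1 := map_one Φ
        rw [this, KG.one_n]; simp
      map_mul' := by
        intro k l
        rw [← Units.val_mul]
        congr 1
        have e1 : (k * l).f = k.f * fun j => l.f ((σ ^ k.n) j) := rfl
        rw [e1, map_mul, KG.mul_n, zpow_add]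
        simp only [mul_assoc]
        congr 1
        rw [← mul_assoc, ← mul_assoc, hpow] }
  have hΨc : Ψ (kc σ) = c := by
    show ((Φ (fun _ => 1) * S ^ (2 : ℤ) : Qˣ) : Q) = c
    have : Φ (fun _ => 1) = 1 := map_one Φ
    rw [this, one_mul, zpow_two, hSS]
  have hΨT : Ψ (kT σ) = v .T := by
    show ((Φ (fun _ => 1) * S ^ (3 : ℤ) : Qˣ) : Q) = v .T
    have h1 : Φ (fun _ => 1) = 1 := map_one Φ
    have h2 : S ^ (3 : ℤ) = S * (S * S) := by
      have : (3 : ℤ) = 1 + (1 + 1) := by norm_num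
      rw [this, zpow_add, zpow_add, zpow_one]
    rw [h1, one_mul, h2, hSS, Units.val_mul, hSval, mul_assoc]
    simp
  have hΨC : ∀ a : J × B × Bool, Ψ (kC σ a) = v (.C a.1 a.2.1 a.2.2) := by
    rintro ⟨j, b, e⟩
    show ((Φ (Pi.mulSingle j (FreeGroup.mk [(b, e)])) * S ^ (2 : ℤ) : Qˣ) : Q) = v (.C j b e)
    rw [hΦ, zpow_two, hSS]
    cases e with
    | true =>
      have : φ j (FreeGroup.mk [(b, true)]) = x j b := FreeGroup.lift_apply_of
      rw [this, Units.val_mul, hxval, mul_assoc]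
      simp
    | false =>
      have h1 : (FreeGroup.mk [(b, false)] : FreeGroup B) = (FreeGroup.of b)⁻¹ := rfl
      have : φ j (FreeGroup.mk [(b, false)]) = (x j b)⁻¹ := by
        rw [h1, map_inv]
        congr 1
        exact FreeGroup.lift_apply_of
      rw [this, Units.val_mul, hxinv, mul_assoc]
      simp
  refine ⟨Ψ, ?_⟩
  intro y
  cases y with
  | c => rw [θ₀, hΨc, hcv]
  | T => rw [θ₀, hΨT]
  | C j b e => exact hΨC (j, b, e)
  | d y =>
    have h1 := hrel _ _ (GRel.dfn (σ := σ) y)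
    have h2 : Ψ (((E.W y).map (kC σ)).prod * kT σ ^ E.t y)
        = ((((E.W y).map (fun a => Gen.C a.1 a.2.1 a.2.2) ++
            List.replicate (E.t y) .T : List (Gen J B D))).map v).prod := by
      rw [map_mul, map_list_prod, List.map_append, List.prod_append, List.map_map, map_pow, hΨT,
        List.map_map, List.map_replicate, List.prod_replicate]
      congr 2
      apply List.map_congr_left
      intro a _
      exact hΨC a
    have h3 : (v (.d y)) * (c : Q) ^ E.N y = Ψ (((E.W y).map (kC σ)).prod * kT σ ^ E.t y) := by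
      rw [h2, ← h1, List.map_cons, List.prod_cons, List.map_replicate, List.prod_replicate, hcv]
    have h4 : Ψ ((kc σ ^ E.N y)⁻¹) * (c : Q) ^ E.N y = 1 := by
      rw [← hΨc, ← map_pow, ← map_mul, inv_mul_cancel, map_one]
    have h5 : (c : Q) ^ E.N y * Ψ ((kc σ ^ E.N y)⁻¹) = 1 := by
      rw [← hΨc, ← map_pow, ← map_mul, mul_inv_cancel, map_one]
    rw [θ₀, map_mul, ← h3, mul_assoc, h5, mul_one]

end universal

end Pool.Agent.MP_ff4305_al
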