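import Pool.Agent.Lib.MP_ff4305_al.Special
import Pool.Agent.Lib.MP_ff4305_al.KG

/-!
The special inverse monoids attached to the padded generators of the group `K`.
-/

namespace Pool.Agent.MP_ff4305_al

open FreeGroup (invRev)

theorem ev_pos_prod {X K : Type} [Group K] (θ : X → K) (x : List X) :
    ev θ (pos x) = (x.map θ).prod := by
  induction x with
  | nil => exact ev_nil θ
  | cons a x ih => rw [ev_pos_cons, ih, List.map_cons, List.prod_cons]

section rel

variable {J B D : Type} [DecidableEq J] {σ : Equiv.Perm J} (E : Extra J B D)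

omit [DecidableEq J] in
theorem pow_two_eq (hσ : ∀ j, σ (σ j) = j) : σ ^ (2 : ℤ) = 1 := by
  apply Equiv.ext
  intro j
  rw [zpow_two, Equiv.Perm.mul_apply, hσ]
  rfl

omit [DecidableEq J] in
theorem pow_three_eq (hσ : ∀ j, σ (σ j) = j) : σ ^ (3 : ℤ) = σ := by
  have h : σ ^ (3 : ℤ) = σ ^ (2 : ℤ) * σ := by
    rw [← zpow_add_one]; norm_num
  rw [h, pow_two_eq hσ, one_mul]

omit [DecidableEq J] in
theorem kc_comm (hσ : ∀ j, σ (σ j) = j) (y : KG B σ) : kc σ * y = y * kc σ := by
  apply KG.ext'
  · intro j
    rw [KG.mul_f, KG.mul_f]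
    have h1 : (kc σ : KG B σ).n = 2 := rfl
    have h2 : ∀ i, (kc σ : KG B σ).f i = 1 := fun _ => rfl
    rw [h1, pow_two_eq hσ, h2, h2, one_mul, mul_one]
    rfl
  · rw [KG.mul_n, KG.mul_n, add_comm]

omit [DecidableEq J] in
theorem kc_pow (N : ℕ) : (kc σ : KG B σ) ^ N = ⟨fun _ => 1, 2 * N⟩ := by
  induction N with
  | zero => apply KG.ext' <;> simp [KG.one_f, KG.one_n]
  | succ N ih =>
    rw [pow_succ, ih]
    apply KG.ext'
    · intro j
      rw [KG.mul_f]
      exact one_mul 1
    · rw [KG.mul_n]
      show 2 * (N : ℤ) + 2 = 2 * ((N + 1 : ℕ) : ℤ)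
      push_cast; ring

/-- the relations hold in `K` -/
theorem grel_K (hσ : ∀ j, σ (σ j) = j) {u w : List (Gen J B D)} (h : GRel σ E u w) :
    (u.map (θ₀ σ E)).prod = (w.map (θ₀ σ E)).prod := by
  cases h with
  | cen y =>
    simp only [List.map_cons, List.map_nil, List.prod_cons, List.prod_nil, mul_one]
    exact kc_comm hσ _
  | inv j b e =>
    simp only [List.map_cons, List.map_nil, List.prod_cons, List.prod_nil, mul_one, θ₀]
    apply KG.ext'
    · intro i
      rw [KG.mul_f, KG.mul_f]
      have h1 : (kC σ (j, b, e) : KG B σ).n = 2 := rfl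
      rw [h1, pow_two_eq hσ]
      show (Pi.mulSingle j (FreeGroup.mk [(b, e)]) : J → FreeGroup B) i
        * (Pi.mulSingle j (FreeGroup.mk [(b, !e)]) : J → FreeGroup B) i = 1 * 1
      rw [← Pi.mul_apply, ← Pi.mulSingle_mul]
      have h2 : FreeGroup.mk [(b, e)] * FreeGroup.mk [(b, !e)] = (1 : FreeGroup B) := by
        have : FreeGroup.mk [(b, !e)] = (FreeGroup.mk [(b, e)] : FreeGroup B)⁻¹ := by
          rw [FreeGroup.inv_mk]; rfl
        rw [this, mul_inv_cancel]
      rw [h2, Pi.mulSingle_one]
      simp
    · rfl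
  | comm j j' b b' e e' h =>
    simp only [List.map_cons, List.map_nil, List.prod_cons, List.prod_nil, mul_one, θ₀]
    apply KG.ext'
    · intro i
      rw [KG.mul_f, KG.mul_f]
      have h1 : (kC σ (j, b, e) : KG B σ).n = 2 := rfl
      have h2 : (kC σ (j', b', e') : KG B σ).n = 2 := rfl
      rw [h1, h2, pow_two_eq hσ]
      show (Pi.mulSingle j (FreeGroup.mk [(b, e)]) : J → FreeGroup B) i
        * (Pi.mulSingle j' (FreeGroup.mk [(b', e')]) : J → FreeGroup B) i
        = (Pi.mulSingle j' (FreeGroup.mk [(b', e')]) : J → FreeGroup B) i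
        * (Pi.mulSingle j (FreeGroup.mk [(b, e)]) : J → FreeGroup B) i
      rw [← Pi.mul_apply, ← Pi.mul_apply]
      have h3 := (Pi.mulSingle_commute (f := fun _ : J => FreeGroup B) h
        (FreeGroup.mk [(b, e)]) (FreeGroup.mk [(b', e')]))
      exact congrFun h3.eq i
    · rfl
  | flip j b e =>
    simp only [List.map_cons, List.map_nil, List.prod_cons, List.prod_nil, mul_one, θ₀]
    apply KG.ext'
    · intro i
      rw [KG.mul_f, KG.mul_f]
      have h1 : (kT σ : KG B σ).n = 3 := rfl
      rw [h1, pow_three_eq hσ]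
      show 1 * (Pi.mulSingle j (FreeGroup.mk [(b, e)]) : J → FreeGroup B) (σ i)
        = (Pi.mulSingle (σ j) (FreeGroup.mk [(b, e)]) : J → FreeGroup B) i * 1
      rw [one_mul, mul_one]
      exact congrFun (flip_single hσ j _) i
    · rfl
  | sq =>
    simp only [List.map_cons, List.map_nil, List.prod_cons, List.prod_nil, mul_one, θ₀]
    apply KG.ext'
    · intro i
      rfl
    · rfl
  | dfn x =>
    rw [List.map_cons, List.prod_cons, List.map_append, List.prod_append, List.map_replicate,
      List.map_replicate, List.prod_replicate, List.prod_replicate, List.map_map]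
    show (((E.W x).map (kC σ)).prod * kT σ ^ E.t x) * (kc σ ^ E.N x)⁻¹ * kc σ ^ E.N x
      = ((E.W x).map (kC σ)).prod * kT σ ^ E.t x
    rw [inv_mul_cancel_right]

/-- `K` is the group of fractions of the submonoid generated by the letters. -/
theorem exists_pow_mem (hσ : ∀ j, σ (σ j) = j) [Finite J] (k : KG B σ) :
    ∃ N : ℕ, k * kc σ ^ N ∈ P0 (θ₀ σ E) := by
  have hc : (kc σ : KG B σ) ∈ P0 (θ₀ σ E) := by
    have := pos_mem_P0 (θ₀ σ E) [.c]
    rwa [ev_pos_prod, List.map_singleton, List.prod_singleton] at this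
  have hT : (kT σ : KG B σ) ∈ P0 (θ₀ σ E) := by
    have := pos_mem_P0 (θ₀ σ E) [.T]
    rwa [ev_pos_prod, List.map_singleton, List.prod_singleton] at this
  have hC : ∀ a : J × B × Bool, (kC σ a : KG B σ) ∈ P0 (θ₀ σ E) := by
    intro a
    have := pos_mem_P0 (θ₀ σ E) [.C a.1 a.2.1 a.2.2]
    rwa [ev_pos_prod, List.map_singleton, List.prod_singleton] at this
  have hcomm : ∀ (N : ℕ) (y : KG B σ), kc σ ^ N * y = y * kc σ ^ N := by
    intro N y
    have : Commute (kc σ) y := kc_comm hσ y
    exact (this.pow_left N).eq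
  let H : Submonoid (KG B σ) :=
    { carrier := {k | ∃ N : ℕ, k * kc σ ^ N ∈ P0 (θ₀ σ E)}
      one_mem' := ⟨0, by rw [pow_zero, mul_one]; exact one_mem_P0 _⟩
      mul_mem' := by
        rintro a b ⟨N, hN⟩ ⟨M, hM⟩
        refine ⟨N + M, ?_⟩
        have : a * b * kc σ ^ (N + M) = (a * kc σ ^ N) * (b * kc σ ^ M) := by
          rw [pow_add, mul_assoc, mul_assoc, ← mul_assoc b, ← hcomm N b]
          simp only [mul_assoc]
        rw [this]
        exact mul_mem_P0 _ hN hM }
  have hS1 : (⟨fun _ => 1, 1⟩ : KG B σ) ∈ H := by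
    refine ⟨1, ?_⟩
    have : (⟨fun _ => 1, 1⟩ : KG B σ) * kc σ ^ 1 = kT σ := by
      rw [pow_one]
      apply KG.ext'
      · intro j; exact one_mul 1
      · rfl
    rw [this]; exact hT
  have hS2 : (⟨fun _ => 1, -1⟩ : KG B σ) ∈ H := by
    refine ⟨2, ?_⟩
    have : (⟨fun _ => 1, -1⟩ : KG B σ) * kc σ ^ 2 = kT σ := by
      rw [pow_two]
      apply KG.ext'
      · intro j
        show (1 : FreeGroup B) * (1 * 1) = 1
        simp
      · rfl
    rw [this]; exact hT
  have hSn : ∀ n : ℤ, (⟨fun _ => 1, n⟩ : KG B σ) ∈ H := by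
    intro n
    induction n using Int.induction_on with
    | zero => exact H.one_mem
    | succ n ih =>
      have := H.mul_mem ih hS1
      have e : (⟨fun _ => 1, (n : ℤ)⟩ * ⟨fun _ => 1, 1⟩ : KG B σ) = ⟨fun _ => 1, (n : ℤ) + 1⟩ := by
        apply KG.ext'
        · intro j; exact one_mul 1
        · rfl
      rwa [e] at this
    | pred n ih =>
      have := H.mul_mem ih hS2
      have e : (⟨fun _ => 1, -(n : ℤ)⟩ * ⟨fun _ => 1, -1⟩ : KG B σ)
          = ⟨fun _ => 1, -(n : ℤ) - 1⟩ := by
        apply KG.ext'
        · intro j; exact one_mul 1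
        · rfl
      rwa [e] at this
  let H' : Submonoid (J → FreeGroup B) :=
    { carrier := {f | (⟨f, 0⟩ : KG B σ) ∈ H}
      one_mem' := H.one_mem
      mul_mem' := by
        intro a b ha hb
        have := H.mul_mem ha hb
        have e : (⟨a, 0⟩ * ⟨b, 0⟩ : KG B σ) = ⟨a * b, 0⟩ := by
          apply KG.ext'
          · intro j; rfl
          · rfl
        rwa [e] at this }
  have hH' : ∀ f, f ∈ H' := by
    intro f
    apply Submonoid.pi_mem_of_mulSingle_mem
    intro j
    induction f j using FreeGroup.induction_on with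
    | C1 => rw [Pi.mulSingle_one]; exact H'.one_mem
    | of b =>
      refine ⟨1, ?_⟩
      have : (⟨Pi.mulSingle j (FreeGroup.of b), 0⟩ : KG B σ) * kc σ ^ 1 = kC σ (j, b, true) := by
        rw [pow_one]
        apply KG.ext'
        · intro i; exact mul_one _
        · rfl
      rw [this]; exact hC _
    | inv_of b _ =>
      refine ⟨1, ?_⟩
      have : (⟨Pi.mulSingle j (FreeGroup.of b)⁻¹, 0⟩ : KG B σ) * kc σ ^ 1
          = kC σ (j, b, false) := by
        rw [pow_one]
        apply KG.ext'
        · intro i; exact mul_one _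
        · rfl
      rw [this]; exact hC _
    | mul x y hx hy => rw [Pi.mulSingle_mul]; exact H'.mul_mem hx hy
  have h1 := H.mul_mem (hH' k.f) (hSn k.n)
  have e : (⟨k.f, 0⟩ * ⟨fun _ => 1, k.n⟩ : KG B σ) = k := by
    apply KG.ext'
    · intro j; exact mul_one _
    · exact zero_add _
  rw [e] at h1
  exact h1

end rel

section loc

/-- the Ore set of powers of a central cancellable element -/
@[reducible] noncomputable def oreSetOfCentral {R : Type} [Monoid R] (c : R) (hcen : ∀ r, c * r = r * c)
    (hcan : ∀ r s, r * c = s * c → r = s) : OreLocalization.OreSet (Submonoid.powers c) where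
  ore_right_cancel := by
    rintro r₁ r₂ ⟨_, n, rfl⟩ h
    refine ⟨1, ?_⟩
    have : ∀ n : ℕ, ∀ r s : R, r * c ^ n = s * c ^ n → r = s := by
      intro n
      induction n with
      | zero => intro r s h; simpa using h
      | succ n ih =>
        intro r s h
        rw [pow_succ, ← mul_assoc, ← mul_assoc] at h
        exact ih _ _ (hcan _ _ h)
    rw [this n r₁ r₂ h]
  oreNum r _ := r
  oreDenom _ s := s
  ore_eq := by
    rintro r ⟨_, n, rfl⟩
    have : Commute c r := hcen r
    exact (this.pow_left n).eq

/-- A monoid with a central cancellable element embeds into a monoid in which the element becomes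
a unit. -/
theorem exists_loc {R : Type} [Monoid R] (c : R) (hcen : ∀ r, c * r = r * c)
    (hcan : ∀ r s, r * c = s * c → r = s) :
    ∃ (Q : Type) (_ : Monoid Q) (ι : R →* Q), Function.Injective ι ∧ IsUnit (ι c) := by
  let _ := oreSetOfCentral c hcen hcan
  refine ⟨OreLocalization (Submonoid.powers c) R, inferInstance, OreLocalization.numeratorHom,
    ?_, ?_⟩
  · intro r s h
    rw [OreLocalization.numeratorHom_apply, OreLocalization.numeratorHom_apply,
      OreLocalization.oreDiv_eq_iff] at h
    obtain ⟨⟨_, n, rfl⟩, v, h1, h2⟩ := h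
    have e2 : c ^ n = v := by simpa using h2
    have e1 : c ^ n * s = v * r := h1
    rw [← e2] at e1
    have hc : ∀ n : ℕ, ∀ r : R, c ^ n * r = r * c ^ n := by
      intro n r
      have : Commute c r := hcen r
      exact (this.pow_left n).eq
    rw [hc, hc] at e1
    have : ∀ n : ℕ, ∀ r s : R, r * c ^ n = s * c ^ n → r = s := by
      intro n
      induction n with
      | zero => intro r s h; simpa using h
      | succ n ih =>
        intro r s h
        rw [pow_succ, ← mul_assoc, ← mul_assoc] at h
        exact ih _ _ (hcan _ _ h)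
    exact (this n _ _ e1).symm
  · exact OreLocalization.numerator_isUnit (⟨c, Submonoid.mem_powers c⟩ : Submonoid.powers c)

end loc

section pres

variable {J B D X : Type} (σ : Equiv.Perm J) (E : Extra J B D) (e : Gen J B D ≃ X)

/-- The defining relators of the special inverse monoid. -/
def relsOf : Set (Word X) :=
  {w | ∃ a : X, w = [(a, true), (a, false)]} ∪
    {w | ∃ u v : List (Gen J B D), GRel σ E u v ∧ w = pos (u.map e) ++ invRev (pos (v.map e))}

/-- the values of the letters -/
def θX [DecidableEq J] (a : X) : KG B σ := θ₀ σ E (e.symm a)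

theorem ev_pos_map [DecidableEq J] (u : List (Gen J B D)) :
    ev (θX σ E e) (pos (u.map e)) = (u.map (θ₀ σ E)).prod := by
  rw [ev_pos_prod, List.map_map]
  congr 1
  apply List.map_congr_left
  intro a _
  show θ₀ σ E (e.symm (e a)) = θ₀ σ E a
  rw [Equiv.symm_apply_apply]

theorem P0_eq [DecidableEq J] : P0 (θX σ E e) = P0 (θ₀ σ E) := by
  ext k
  constructor
  · rintro ⟨x, rfl⟩
    refine ⟨x.map e.symm, ?_⟩
    rw [ev_pos_prod, ev_pos_prod, List.map_map]
    rfl
  · rintro ⟨x, rfl⟩
    refine ⟨x.map e, ?_⟩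
    rw [ev_pos_map, ev_pos_prod]

theorem good_of [DecidableEq J] [Fintype J] (hσ : ∀ j, σ (σ j) = j) :
    Good (relsOf σ E e) (θX σ E e) := by
  -- relation words
  have hrelS : ∀ u v, GRel σ E u v →
      invMk (relsOf σ E e) (pos (u.map e)) * invMk (relsOf σ E e) (invRev (pos (v.map e))) = 1 := by
    intro u v h
    rw [← invMk_append]
    exact invMk_rel (Or.inr ⟨u, v, h, rfl⟩)
  have hunit : ∀ a, invMk (relsOf σ E e) [(a, true)] * invMk (relsOf σ E e) [(a, false)] = 1 := by
    intro a
    rw [← invMk_append]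
    exact invMk_rel (Or.inl ⟨a, rfl⟩)
  have hposunit : ∀ x : List X,
      invMk (relsOf σ E e) (pos x) * invMk (relsOf σ E e) (invRev (pos x)) = 1 := by
    intro x
    induction x with
    | nil => exact one_mul 1
    | cons a x ih =>
      rw [pos_cons, FreeGroup.invRev_append, invMk_append, invMk_append, mul_assoc,
        ← mul_assoc (invMk _ (pos x)), ih, one_mul, invRev_single]
      exact hunit a
  have hrel' : ∀ u v, GRel σ E u v →
      invMk (relsOf σ E e) (pos (u.map e)) = invMk (relsOf σ E e) (pos (v.map e)) := by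
    intro u v h
    -- `u v⁻¹ = 1` gives `u = v`: `u = u (v⁻¹ v)` up to idempotents
    have h1 := hrelS u v h
    have h2 := hposunit (v.map e)
    have h3 := invMk_inv (rels := relsOf σ E e) (pos (v.map e))
    have h4 := hposunit (u.map e)
    have h5 := invMk_comm (rels := relsOf σ E e) (invRev (pos (v.map e))) (invRev (pos (u.map e)))
    simp only [FreeGroup.invRev_invRev] at h5
    have h3' := invMk_inv (rels := relsOf σ E e) (pos (u.map e))
    have h6 := invMk_inv (rels := relsOf σ E e) (invRev (pos (v.map e)))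
    have h7 := invMk_inv (rels := relsOf σ E e) (invRev (pos (u.map e)))
    simp only [FreeGroup.invRev_invRev] at h6 h7
    generalize invMk (relsOf σ E e) (pos (u.map e)) = U at *
    generalize invMk (relsOf σ E e) (pos (v.map e)) = V at *
    generalize invMk (relsOf σ E e) (invRev (pos (u.map e))) = U' at *
    generalize invMk (relsOf σ E e) (invRev (pos (v.map e))) = V' at *
    -- U V' = 1, V V' = 1, U U' = 1, V' V and U' U commute, U' U U' = U', V' V V' = V'
    -- U = U U' U (V' V) ... first: U V' V = V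
    have a1 : U * V' * V = V := by rw [h1, one_mul]
    -- V V' U' U: the idempotents commute
    have a2 : V' * V * (U' * U) = U' * U * (V' * V) := h5
    -- multiply on the left by U: U V' V U' U = U U' U V' V
    have a3 : V * (U' * U) = U * (V' * V) := by
      calc V * (U' * U) = U * V' * V * (U' * U) := by rw [a1]
        _ = U * (V' * V * (U' * U)) := by simp only [mul_assoc]
        _ = U * (U' * U * (V' * V)) := by rw [a2]
        _ = (U * U') * (U * (V' * V)) := by simp only [mul_assoc]
        _ = U * (V' * V) := by rw [h4, one_mul]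
    have a4 : U * (V' * V) = V := by rw [← mul_assoc, a1]
    rw [a4] at a3
    -- V U' U = V ; so V U' is a left inverse type element
    -- V U' = V U' (U V') = V (V') = 1
    have a5 : V * U' = 1 := by
      calc V * U' = V * U' * (U * V') := by rw [h1, mul_one]
        _ = V * (U' * U) * V' := by simp only [mul_assoc]
        _ = 1 := by rw [a3, h2]
    -- now U = (V U') U = V (U' U) = V
    calc U = V * U' * U := by rw [a5, one_mul]
      _ = V * (U' * U) := by rw [mul_assoc]
      _ = V := a3
  have hev1 : ∀ u v, GRel σ E u v →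
      ev (θX σ E e) (pos (u.map e)) = ev (θX σ E e) (pos (v.map e)) := by
    intro u v h
    rw [ev_pos_map, ev_pos_map, grel_K E hσ h]
  refine
    { unit := hunit
      one := ?_
      stay := ?_
      complete := ?_
      ore := ?_
      grp := ?_ }
  · rintro w (⟨a, rfl⟩ | ⟨u, v, h, rfl⟩)
    · have : ([(a, true), (a, false)] : Word X) = [(a, true)] ++ invRev [(a, true)] := rfl
      rw [this, ev_append, ev_invRev, mul_inv_cancel]
    · rw [ev_append, ev_invRev, hev1 u v h, mul_inv_cancel]
  · rintro w (⟨a, rfl⟩ | ⟨u, v, h, rfl⟩) p hp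
    · have h1 : Stays (θX σ E e) (pos [a]) p := stays_pos _ [a] p hp
      have h2 := stays_back _ _ p hp h1
      exact (stays_append _ (pos [a]) (invRev (pos [a])) p).mpr ⟨h1, h2⟩
    · rw [stays_append]
      refine ⟨stays_pos _ _ p hp, ?_⟩
      rw [hev1 u v h]
      exact stays_back _ _ p hp (stays_pos _ _ p hp)
  · intro x z hxz
    -- the submonoid generated by the letters
    let S := SpecialInv (relsOf σ E e)
    let R : Submonoid S :=
      { carrier := {s | ∃ x : List X, invMk (relsOf σ E e) (pos x) = s}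
        one_mem' := ⟨[], rfl⟩
        mul_mem' := by
          rintro _ _ ⟨x, rfl⟩ ⟨y, rfl⟩
          exact ⟨x ++ y, by rw [pos_append, invMk_append]⟩ }
    let v : X → R := fun a => ⟨invMk (relsOf σ E e) (pos [a]), [a], rfl⟩
    have hvx : ∀ x : List X, (((x.map v).prod : R) : S) = invMk (relsOf σ E e) (pos x) := by
      intro x
      induction x with
      | nil => rfl
      | cons a x ih =>
        rw [List.map_cons, List.prod_cons, Submonoid.coe_mul, ih]
        rfl
    have hvrel : ∀ u w, GRel σ E u w →
        (u.map (fun y => v (e y))).prod = (w.map (fun y => v (e y))).prod := by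
      intro u w h
      apply Subtype.ext
      have h1 := hvx (u.map e)
      have h2 := hvx (w.map e)
      rw [List.map_map] at h1 h2
      have h3 : (u.map (fun y => v (e y))) = u.map (v ∘ e) := rfl
      have h4 : (w.map (fun y => v (e y))) = w.map (v ∘ e) := rfl
      rw [h3, h4, h1, h2]
      exact hrel' u w h
    have hgen : ∀ r : R, ∃ x : List X, r = (x.map v).prod := by
      rintro ⟨_, x, rfl⟩
      exact ⟨x, Subtype.ext (hvx x).symm⟩
    have hcen0 : ∀ y, v (e .c) * v (e y) = v (e y) * v (e .c) := by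
      intro y
      have := hvrel _ _ (GRel.cen (σ := σ) (E := E) y)
      simpa using this
    have hcen : ∀ r : R, v (e .c) * r = r * v (e .c) := by
      intro r
      obtain ⟨x, rfl⟩ := hgen r
      induction x with
      | nil => simp
      | cons a x ih =>
        rw [List.map_cons, List.prod_cons]
        have := hcen0 (e.symm a)
        rw [Equiv.apply_symm_apply] at this
        rw [← mul_assoc, this, mul_assoc, ih, mul_assoc]
    have hcan : ∀ r s : R, r * v (e .c) = s * v (e .c) → r = s := by
      intro r s h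
      apply Subtype.ext
      have h1 : (r : S) * invMk (relsOf σ E e) [(e .c, true)]
          = (s : S) * invMk (relsOf σ E e) [(e .c, true)] := congrArg Subtype.val h
      have h2 := congrArg (fun t => t * invMk (relsOf σ E e) [(e .c, false)]) h1
      simp only [mul_assoc, hunit, mul_one] at h2
      exact h2
    obtain ⟨Q, _, ι, hι, hcu⟩ := exists_loc (v (e .c)) hcen hcan
    obtain ⟨Ψ, hΨ⟩ := exists_hom (σ := σ) E hσ (fun y => ι (v (e y)))
      (by
        intro u w h
        have := congrArg ι (hvrel u w h)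
        rw [map_list_prod, map_list_prod, List.map_map, List.map_map] at this
        exact this) hcu
    have hfin : ∀ x : List X, Ψ (ev (θX σ E e) (pos x)) = ι ((x.map v).prod) := by
      intro x
      rw [ev_pos_prod, map_list_prod, map_list_prod, List.map_map, List.map_map]
      congr 1
      apply List.map_congr_left
      intro a _
      show Ψ (θ₀ σ E (e.symm a)) = ι (v a)
      rw [hΨ, Equiv.apply_symm_apply]
    have h1 := hfin x
    rw [hxz, hfin z] at h1
    have h2 := hι h1
    have h3 := congrArg Subtype.val h2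
    rw [hvx, hvx] at h3
    exact h3.symm
  · intro a ha b hb
    rw [P0_eq] at *
    have hcomm : ∀ (N : ℕ) (y : KG B σ), kc σ ^ N * y = y * kc σ ^ N := by
      intro N y
      have : Commute (kc σ) y := kc_comm hσ y
      exact (this.pow_left N).eq
    obtain ⟨N, hN⟩ := exists_pow_mem E hσ a⁻¹
    obtain ⟨M, hM⟩ := exists_pow_mem E hσ b⁻¹
    have hc : ∀ n : ℕ, (kc σ : KG B σ) ^ n ∈ P0 (θ₀ σ E) := by
      intro n
      refine ⟨List.replicate n .c, ?_⟩
      rw [ev_pos_prod, List.map_replicate, List.prod_replicate]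
      rfl
    refine ⟨a⁻¹ * kc σ ^ N * kc σ ^ M, mul_mem_P0 _ hN (hc M),
      b⁻¹ * kc σ ^ M * kc σ ^ N, mul_mem_P0 _ hM (hc N), ?_⟩
    simp only [← mul_assoc, mul_inv_cancel, one_mul]
    rw [hcomm]
  · intro w hw
    have hrelG : ∀ u v, GRel σ E u v →
        grpMk (relsOf σ E e) (pos (u.map e)) = grpMk (relsOf σ E e) (pos (v.map e)) := by
      intro u v h
      have := grpMk_rel (relsOf σ E e) (w := pos (u.map e) ++ invRev (pos (v.map e)))
        (Or.inr ⟨u, v, h, rfl⟩)
      rw [grpMk_append, grpMk_invRev] at this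
      exact mul_inv_eq_one.mp this
    let v : X → MaxGroup (relsOf σ E e) := fun a => grpMk (relsOf σ E e) (pos [a])
    have hvx : ∀ x : List X, (x.map v).prod = grpMk (relsOf σ E e) (pos x) := by
      intro x
      induction x with
      | nil =>
        rw [List.map_nil, List.prod_nil]
        show 1 = PresentedGroup.mk _ (FreeGroup.mk [])
        rw [← FreeGroup.one_eq_mk, map_one]
      | cons a x ih =>
        rw [List.map_cons, List.prod_cons, ih, pos_cons, grpMk_append]
        rfl
    obtain ⟨Ψ, hΨ⟩ := exists_hom (σ := σ) E hσ (fun y => v (e y))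
      (by
        intro u w h
        have h1 := hvx (u.map e)
        have h2 := hvx (w.map e)
        rw [List.map_map] at h1 h2
        have h3 : (u.map (fun y => v (e y))) = u.map (v ∘ e) := rfl
        have h4 : (w.map (fun y => v (e y))) = w.map (v ∘ e) := rfl
        rw [h3, h4, h1, h2]
        exact hrelG u w h) (Group.isUnit _)
    have hhom : Ψ.comp (FreeGroup.lift (θX σ E e)) = PresentedGroup.mk _ := by
      ext a
      show Ψ (FreeGroup.lift (θX σ E e) (FreeGroup.of a)) = PresentedGroup.mk _ (FreeGroup.of a)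
      rw [FreeGroup.lift_apply_of]
      show Ψ (θ₀ σ E (e.symm a)) = _
      rw [hΨ, Equiv.apply_symm_apply]
      rfl
    have h1 := DFunLike.congr_fun hhom (FreeGroup.mk w)
    have h2 : Ψ (ev (θX σ E e) w) = grpMk (relsOf σ E e) w := h1
    rw [← h2, hw, map_one]

theorem gen_finite [Finite J] [Finite B] [Finite D] : Finite (Gen J B D) := by
  let f : Gen J B D → (Option (Option (D ⊕ (J × B × Bool)))) := fun y => match y with
    | .c => none
    | .T => some none
    | .C j b e => some (some (Sum.inr (j, b, e)))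
    | .d x => some (some (Sum.inl x))
  apply Finite.of_injective f
  intro y z h
  cases y <;> cases z <;> simp_all [f]

theorem relsOf_finite [Finite J] [Finite B] [Finite D] : (relsOf σ E e).Finite := by
  have := gen_finite (J := J) (B := B) (D := D)
  have : Finite X := Finite.of_equiv _ e
  apply Set.Finite.union
  · have : {w : Word X | ∃ a : X, w = [(a, true), (a, false)]}
        = Set.range fun a : X => ([(a, true), (a, false)] : Word X) := by
      ext w; simp [eq_comm]
    rw [this]
    exact Set.finite_range _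
  · have h1 : {w : Word X | ∃ u v : List (Gen J B D), GRel σ E u v ∧
        w = pos (u.map e) ++ invRev (pos (v.map e))}
        = (fun p : List (Gen J B D) × List (Gen J B D) =>
          pos (p.1.map e) ++ invRev (pos (p.2.map e))) '' {p | GRel σ E p.1 p.2} := by
      ext w
      constructor
      · rintro ⟨u, v, h, rfl⟩; exact ⟨(u, v), h, rfl⟩
      · rintro ⟨⟨u, v⟩, h, rfl⟩; exact ⟨u, v, h, rfl⟩
    rw [h1]
    apply Set.Finite.image
    let F : Gen J B D ⊕ (J × B × Bool) ⊕ ((J × J) × (B × B) × (Bool × Bool)) ⊕ (J × B × Bool)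
        ⊕ Unit ⊕ D → List (Gen J B D) × List (Gen J B D) := fun t => match t with
      | Sum.inl y => ([.c, y], [y, .c])
      | Sum.inr (Sum.inl (j, b, e)) => ([.C j b e, .C j b (!e)], [.c, .c])
      | Sum.inr (Sum.inr (Sum.inl ((j, j'), (b, b'), (e, e')))) =>
          ([.C j b e, .C j' b' e'], [.C j' b' e', .C j b e])
      | Sum.inr (Sum.inr (Sum.inr (Sum.inl (j, b, e)))) => ([.T, .C j b e], [.C (σ j) b e, .T])
      | Sum.inr (Sum.inr (Sum.inr (Sum.inr (Sum.inl _)))) => ([.T, .T], [.c, .c, .c])
      | Sum.inr (Sum.inr (Sum.inr (Sum.inr (Sum.inr x)))) =>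
          (.d x :: List.replicate (E.N x) .c,
            (E.W x).map (fun a => Gen.C a.1 a.2.1 a.2.2) ++ List.replicate (E.t x) .T)
    apply (Set.finite_range F).subset
    rintro ⟨u, v⟩ h
    cases h with
    | cen y => exact ⟨Sum.inl y, rfl⟩
    | inv j b e => exact ⟨Sum.inr (Sum.inl (j, b, e)), rfl⟩
    | comm j j' b b' e e' h => exact ⟨Sum.inr (Sum.inr (Sum.inl ((j, j'), (b, b'), (e, e')))), rfl⟩
    | flip j b e => exact ⟨Sum.inr (Sum.inr (Sum.inr (Sum.inl (j, b, e)))), rfl⟩
    | sq => exact ⟨Sum.inr (Sum.inr (Sum.inr (Sum.inr (Sum.inl ())))), rfl⟩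
    | dfn x => exact ⟨Sum.inr (Sum.inr (Sum.inr (Sum.inr (Sum.inr x)))), rfl⟩

end pres

end Pool.Agent.MP_ff4305_al
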