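import Mathlib

/-!
Definitions for special inverse monoids: presentations, E-unitarity, the maximal group image,
the monoid of images of right units, and the word problems.
-/

namespace Pool.Agent.MP_ff4305_al

open FreeGroup (invRev)

/-- Words over `X ∪ X⁻¹`: the letter `(x, true)` is `x`, the letter `(x, false)` is `x⁻¹`.
The formal inverse of the word `w` is `invRev w` (reverse `w` and invert every letter). -/
abbrev Word (X : Type) : Type := List (X × Bool)

/-- The defining relations of the inverse monoid `Inv⟨X | w = 1 (w ∈ rels)⟩` on the free monoid on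
`X ∪ X⁻¹`: the Wagner relations `u u⁻¹ u = u`, `u u⁻¹ v v⁻¹ = v v⁻¹ u u⁻¹` for all words, and the
relations `w = 1`. -/
inductive InvRel {X : Type} (rels : Set (Word X)) :
    FreeMonoid (X × Bool) → FreeMonoid (X × Bool) → Prop
  | inv (u : Word X) :
      InvRel rels (FreeMonoid.ofList (u ++ invRev u ++ u)) (FreeMonoid.ofList u)
  | comm (u v : Word X) :
      InvRel rels (FreeMonoid.ofList (u ++ invRev u ++ (v ++ invRev v)))
        (FreeMonoid.ofList (v ++ invRev v ++ (u ++ invRev u)))
  | rel (w : Word X) (h : w ∈ rels) : InvRel rels (FreeMonoid.ofList w) 1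

/-- The special inverse monoid `Inv⟨X | w = 1 (w ∈ rels)⟩`. -/
abbrev SpecialInv {X : Type} (rels : Set (Word X)) : Type := (conGen (InvRel rels)).Quotient

/-- The element of `Inv⟨X | w = 1 (w ∈ rels)⟩` represented by a word. -/
def invMk {X : Type} (rels : Set (Word X)) (w : Word X) : SpecialInv rels :=
  ((FreeMonoid.ofList w : FreeMonoid (X × Bool)) : (conGen (InvRel rels)).Quotient)

/-- A monoid (meant: an inverse monoid) is `E`-unitary: if `e ≤ s` in the natural partial order,
that is, `e = f s` for an idempotent `f`, and `e` is idempotent, then `s` is idempotent. -/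
def IsEUnitary (S : Type) [Monoid S] : Prop :=
  ∀ e s : S, e * e = e → (∃ f : S, f * f = f ∧ e = f * s) → s * s = s

/-- The maximal group image `Gp⟨X | w = 1 (w ∈ rels)⟩`. -/
abbrev MaxGroup {X : Type} (rels : Set (Word X)) : Type :=
  PresentedGroup ((fun w : Word X => FreeGroup.mk w) '' rels)

/-- The element of `Gp⟨X | w = 1 (w ∈ rels)⟩` represented by a word. -/
def grpMk {X : Type} (rels : Set (Word X)) (w : Word X) : MaxGroup rels :=
  PresentedGroup.mk _ (FreeGroup.mk w)

theorem grpMk_append {X : Type} (rels : Set (Word X)) (u v : Word X) :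
    grpMk rels (u ++ v) = grpMk rels u * grpMk rels v := by
  simp only [grpMk, ← map_mul, FreeGroup.mul_mk]

theorem grpMk_invRev {X : Type} (rels : Set (Word X)) (u : Word X) :
    grpMk rels (invRev u) = (grpMk rels u)⁻¹ := by
  simp only [grpMk, ← map_inv, FreeGroup.inv_mk]

theorem grpMk_rel {X : Type} (rels : Set (Word X)) {w : Word X} (h : w ∈ rels) :
    grpMk rels w = 1 := by
  apply (PresentedGroup.mk_eq_one_iff).mpr
  exact Subgroup.subset_normalClosure ⟨w, h, rfl⟩

/-- The canonical map from `Inv⟨X | w = 1 (w ∈ rels)⟩` to its maximal group image. -/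
def toGrp {X : Type} (rels : Set (Word X)) : SpecialInv rels →* MaxGroup rels :=
  (conGen (InvRel rels)).lift
    { toFun := fun w => grpMk rels (FreeMonoid.toList w)
      map_one' := by
        show PresentedGroup.mk _ (FreeGroup.mk []) = 1
        rw [← FreeGroup.one_eq_mk, map_one]
      map_mul' := fun u v => grpMk_append rels _ _ }
    (by
      apply Con.conGen_le.mpr
      intro x y h
      show grpMk rels (FreeMonoid.toList x) = grpMk rels (FreeMonoid.toList y)
      cases h with
      | inv u =>
        simp only [FreeMonoid.toList_ofList, grpMk_append, grpMk_invRev]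
        group
      | comm u v =>
        simp only [FreeMonoid.toList_ofList, grpMk_append, grpMk_invRev]
        group
      | rel w h =>
        rw [FreeMonoid.toList_ofList, grpMk_rel rels h]
        show 1 = PresentedGroup.mk _ (FreeGroup.mk [])
        rw [← FreeGroup.one_eq_mk, map_one])

theorem toGrp_mk {X : Type} (rels : Set (Word X)) (w : Word X) :
    toGrp rels (invMk rels w) = grpMk rels w := rfl

/-- The prefix monoid of `S = Inv⟨X | w = 1 (w ∈ rels)⟩`: the image in the maximal group image of
the `R`-class of `1`, that is, of the set of right units `s` (`s t = 1` for some `t`) of `S`. -/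
def PrefMon {X : Type} (rels : Set (Word X)) : Set (MaxGroup rels) :=
  {g | ∃ s t : SpecialInv rels, s * t = 1 ∧ toGrp rels s = g}

/-- A monoid `P` inside a group is right reversible: `a P ∩ b P ≠ ∅` for all `a, b ∈ P`. -/
def RightReversible {G : Type} [Group G] (P : Set G) : Prop :=
  ∀ a ∈ P, ∀ b ∈ P, ∃ c ∈ P, ∃ d ∈ P, a * c = b * d

/-- The word problem of `Inv⟨X | w = 1 (w ∈ rels)⟩` is solvable. -/
def InvWPSolvable {X : Type} [Primcodable X] (rels : Set (Word X)) : Prop :=
  ComputablePred fun p : Word X × Word X => invMk rels p.1 = invMk rels p.2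

/-- The word problem of `Gp⟨X | w = 1 (w ∈ rels)⟩` is solvable. -/
def GrpWPSolvable {X : Type} [Primcodable X] (rels : Set (Word X)) : Prop :=
  ComputablePred fun p : Word X × Word X => grpMk rels p.1 = grpMk rels p.2

end Pool.Agent.MP_ff4305_al
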