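import Mathlib

/-!
Multi-stack suffix rewriting: the interface between computability and group theory.
-/

namespace Pool.Agent.MP_ff4305_al

/-- One step of a finite multi-stack suffix rewriting system `R`: a rule `r` replaces, on every
stack `k` simultaneously, the suffix `r.1 k` of the content by `r.2 k`. -/
def MStep {ι A : Type} (R : List ((ι → List A) × (ι → List A))) (c c' : ι → List A) : Prop :=
  ∃ r ∈ R, ∃ v : ι → List A, (∀ k, c k = v k ++ r.1 k) ∧ (∀ k, c' k = v k ++ r.2 k)

end Pool.Agent.MP_ff4305_al
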