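import Pool.Agent.Lib.MP_ff4305_al.Construct
import Pool.Agent.Lib.MP_ff4305_al.MStep

/-!
Encoding of multi-stack suffix rewriting into membership in a submonoid of the group `K`.
-/

namespace Pool.Agent.MP_ff4305_al

open FreeGroup (invRev)

section pos

variable {B : Type}

/-- the positive element given by a list -/
def P (l : List B) : FreeGroup B := FreeGroup.mk (pos l)

theorem P_nil : P ([] : List B) = 1 := rfl

theorem P_append (l l' : List B) : P (l ++ l') = P l * P l' := by
  rw [P, P, P, FreeGroup.mul_mk, pos_append]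

theorem P_cons (b : B) (l : List B) : P (b :: l) = FreeGroup.of b * P l := by
  rw [← List.singleton_append, P_append]; rfl

theorem reduce_pos [DecidableEq B] (l : List B) : FreeGroup.reduce (pos l) = pos l := by
  induction l with
  | nil => rfl
  | cons b l ih =>
    rw [pos_cons, List.singleton_append, FreeGroup.reduce.cons, ih]
    cases l with
    | nil => rfl
    | cons b' l => simp [pos]

theorem pos_injective : Function.Injective (pos : List B → Word B) := by
  apply List.map_injective_iff.mpr
  intro a b h
  exact congrArg Prod.fst h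

theorem P_injective : Function.Injective (P : List B → FreeGroup B) := by
  classical
  intro l l' h
  have h1 := congrArg FreeGroup.toWord h
  rw [P, P, FreeGroup.toWord_mk, FreeGroup.toWord_mk, reduce_pos, reduce_pos] at h1
  exact pos_injective h1

end pos

section tiles

variable {ι A : Type} [DecidableEq ι]

/-- tiles: copying tiles and rule tiles -/
inductive Tile (ι A : Type) (n : ℕ) : Type
  | cp (k : ι) (a : A) : Tile ι A n
  | rl (i : Fin n) : Tile ι A n

variable (R : List ((ι → List A) × (ι → List A)))

/-- the letters of a stack followed by the end marker -/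
def hash (l : List A) : List (Option A) := l.map some ++ [none]

/-- bottom word of a tile -/
def bot : Tile ι A R.length → ι → List (Option A)
  | .cp k a, k' => if k' = k then [some a] else []
  | .rl i, k' => hash ((R.get i).1 k')

/-- top word of a tile -/
def top : Tile ι A R.length → ι → List (Option A)
  | .cp k a, k' => if k' = k then [some a] else []
  | .rl i, k' => hash ((R.get i).2 k')

/-- bottom word of a list of tiles -/
def bots : List (Tile ι A R.length) → ι → List (Option A)
  | [], _ => []
  | τ :: ts, k => bot R τ k ++ bots ts k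

/-- top word of a list of tiles -/
def tops : List (Tile ι A R.length) → ι → List (Option A)
  | [], _ => []
  | τ :: ts, k => top R τ k ++ tops ts k

theorem bots_append (ts ts' : List (Tile ι A R.length)) (k : ι) :
    bots R (ts ++ ts') k = bots R ts k ++ bots R ts' k := by
  induction ts with
  | nil => rfl
  | cons τ ts ih => rw [List.cons_append, bots, bots, ih, List.append_assoc]

theorem tops_append (ts ts' : List (Tile ι A R.length)) (k : ι) :
    tops R (ts ++ ts') k = tops R ts k ++ tops R ts' k := by
  induction ts with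
  | nil => rfl
  | cons τ ts ih => rw [List.cons_append, tops, tops, ih, List.append_assoc]

theorem first_hash (w w' : List A) (s s' : List (Option A))
    (h : w.map some ++ none :: s = w'.map some ++ none :: s') : w = w' ∧ s = s' := by
  induction w generalizing w' with
  | nil =>
    cases w' with
    | nil => simpa using h
    | cons a w' => simp at h
  | cons a w ih =>
    cases w' with
    | nil => simp at h
    | cons a' w' =>
      simp only [List.map_cons, List.cons_append, List.cons.injEq, Option.some.injEq] at h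
      obtain ⟨h1, h2⟩ := ih w' h.2
      exact ⟨by rw [h.1, h1], h2⟩

theorem tiles_reach (fin : ι → List A) (ts : List (Tile ι A R.length)) :
    ∀ w u : ι → List A, (∀ k, hash (w k) ++ ((u k).map some ++ tops R ts k)
      = (u k).map some ++ (bots R ts k ++ hash (fin k))) →
    Relation.ReflTransGen (MStep R) w fin := by
  induction ts with
  | nil =>
    intro w u h
    have h1 : ∀ k, w k = fin k := by
      intro k
      have h2 := h k
      simp only [tops, bots, List.append_nil, List.nil_append, hash, List.append_assoc,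
        List.singleton_append] at h2
      rw [← List.append_assoc ((u k).map some), ← List.map_append] at h2
      obtain ⟨h3, h4⟩ := first_hash _ _ _ _ h2
      have h5 : u k = [] := by simpa using h4
      rw [h3, h5, List.nil_append]
    have h2 : w = fin := funext h1
    rw [h2]
  | cons τ ts ih =>
    intro w u h
    cases τ with
    | cp k0 a =>
      apply ih w (fun k => u k ++ (if k = k0 then [a] else []))
      intro k
      have h2 := h k
      simp only [tops, bots, top, bot] at h2
      by_cases hk : k = k0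
      · simp only [hk, if_true, List.map_append, List.append_assoc, List.map_cons,
          List.map_nil] at h2 ⊢
        exact h2
      · simpa only [hk, if_false, List.append_nil, List.nil_append] using h2
    | rl i =>
      have h1 : ∀ k, w k = u k ++ (R.get i).1 k ∧
          (u k).map some ++ (hash ((R.get i).2 k) ++ tops R ts k)
            = bots R ts k ++ hash (fin k) := by
        intro k
        have h2 := h k
        simp only [tops, bots, top, bot] at h2
        have h3 : (w k).map some ++ none ::
            ((u k).map some ++ (hash ((R.get i).2 k) ++ tops R ts k))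
            = (u k ++ (R.get i).1 k).map some ++ none :: (bots R ts k ++ hash (fin k)) := by
          simpa [hash, List.append_assoc] using h2
        exact first_hash _ _ _ _ h3
      refine Relation.ReflTransGen.head (b := fun k => u k ++ (R.get i).2 k) ?_ ?_
      · exact ⟨R.get i, List.get_mem R i, u, fun k => (h1 k).1, fun k => rfl⟩
      · apply ih _ (fun _ => [])
        intro k
        have h2 := (h1 k).2
        simpa [hash, List.append_assoc] using h2

theorem exists_copies [Finite ι] (v : ι → List A) : ∃ cs : List (Tile ι A R.length),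
    ∀ k, tops R cs k = (v k).map some ∧ bots R cs k = (v k).map some := by
  let H : Submonoid (ι → FreeMonoid A) :=
    { carrier := {v | ∃ cs : List (Tile ι A R.length),
        ∀ k, tops R cs k = (FreeMonoid.toList (v k)).map some ∧
          bots R cs k = (FreeMonoid.toList (v k)).map some}
      one_mem' := ⟨[], fun k => ⟨rfl, rfl⟩⟩
      mul_mem' := by
        rintro a b ⟨cs, h⟩ ⟨cs', h'⟩
        refine ⟨cs ++ cs', fun k => ?_⟩
        rw [tops_append, bots_append, (h k).1, (h k).2, (h' k).1, (h' k).2, ← List.map_append]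
        exact ⟨rfl, rfl⟩ }
  have hH : ∀ v, v ∈ H := by
    intro v
    apply Submonoid.pi_mem_of_mulSingle_mem
    intro k
    induction v k using FreeMonoid.inductionOn' with
    | one => rw [Pi.mulSingle_one]; exact H.one_mem
    | of_mul a x ih =>
      rw [Pi.mulSingle_mul]
      refine H.mul_mem ⟨[Tile.cp k a], ?_⟩ ih
      intro k'
      by_cases hk : k' = k
      · subst hk
        simp [tops, bots, top, bot]
      · simp [tops, bots, top, bot, hk]
  exact hH (fun k => FreeMonoid.ofList (v k))

theorem reach_tiles [Finite ι] (fin w : ι → List A)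
    (h : Relation.ReflTransGen (MStep R) w fin) :
    ∃ ts : List (Tile ι A R.length), ∀ k, hash (w k) ++ tops R ts k
      = bots R ts k ++ hash (fin k) := by
  induction h using Relation.ReflTransGen.head_induction_on with
  | refl => exact ⟨[], fun k => by simp [tops, bots]⟩
  | head h1 _ ih =>
    obtain ⟨ts, hts⟩ := ih
    obtain ⟨r, hr, v, hv1, hv2⟩ := h1
    obtain ⟨i, rfl⟩ := List.mem_iff_get.mp hr
    obtain ⟨cs, hcs⟩ := exists_copies R v
    refine ⟨cs ++ Tile.rl i :: ts, ?_⟩
    intro k
    have h2 := hts k
    rw [hv2 k] at h2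
    rw [tops_append, bots_append, (hcs k).1, (hcs k).2, tops, bots, top, bot, hv1 k]
    have h3 : hash (v k ++ (R.get i).1 k) = (v k).map some ++ hash ((R.get i).1 k) := by
      simp [hash]
    have h4 : hash (v k ++ (R.get i).2 k) = (v k).map some ++ hash ((R.get i).2 k) := by
      simp [hash]
    rw [h3]
    rw [h4, List.append_assoc] at h2
    simp only [List.append_assoc]
    rw [← h2]

theorem reach_iff [Finite ι] (fin w : ι → List A) :
    Relation.ReflTransGen (MStep R) w fin ↔
    ∃ ts : List (Tile ι A R.length), ∀ k, hash (w k) ++ tops R ts k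
      = bots R ts k ++ hash (fin k) := by
  constructor
  · exact reach_tiles R fin w
  · rintro ⟨ts, h⟩
    apply tiles_reach R fin ts w (fun _ => [])
    intro k
    simpa using h k

end tiles

section ext

variable {J B D : Type} [DecidableEq J] {σ : Equiv.Perm J}

omit [DecidableEq J] in
theorem pow_even (hσ : ∀ j, σ (σ j) = j) (n : ℤ) : σ ^ (2 * n) = 1 := by
  rw [zpow_mul, pow_two_eq hσ, one_zpow]

omit [DecidableEq J] in
theorem kT_pow (t : ℕ) : (kT σ : KG B σ) ^ t = ⟨fun _ => 1, 3 * t⟩ := by
  induction t with
  | zero => apply KG.ext' <;> simp [KG.one_f, KG.one_n]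
  | succ N ih =>
    rw [pow_succ, ih]
    apply KG.ext'
    · intro j
      rw [KG.mul_f]
      exact one_mul 1
    · rw [KG.mul_n]
      show 3 * (N : ℤ) + 3 = 3 * ((N + 1 : ℕ) : ℤ)
      push_cast; ring

theorem exists_word [Finite J] (hσ : ∀ j, σ (σ j) = j) (g : J → FreeGroup B) :
    ∃ W : List (J × B × Bool), (W.map (kC σ)).prod = ⟨g, 2 * W.length⟩ := by
  let H : Submonoid (J → FreeGroup B) :=
    { carrier := {g | ∃ W : List (J × B × Bool), (W.map (kC σ)).prod = ⟨g, 2 * W.length⟩}
      one_mem' := ⟨[], rfl⟩
      mul_mem' := by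
        rintro a b ⟨W, h⟩ ⟨W', h'⟩
        refine ⟨W ++ W', ?_⟩
        rw [List.map_append, List.prod_append, h, h']
        apply KG.ext'
        · intro j
          rw [KG.mul_f, pow_even hσ]
          rfl
        · rw [KG.mul_n]
          simp only [List.length_append]
          push_cast; ring }
  have hH : ∀ g, g ∈ H := by
    intro g
    apply Submonoid.pi_mem_of_mulSingle_mem
    intro j
    induction g j using FreeGroup.induction_on with
    | C1 => rw [Pi.mulSingle_one]; exact H.one_mem
    | of b => exact ⟨[(j, b, true)], by simp [kC]; rfl⟩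
    | inv_of b _ => exact ⟨[(j, b, false)], by simp [kC]; rfl⟩
    | mul x y hx hy => rw [Pi.mulSingle_mul]; exact H.mul_mem hx hy
  exact hH g

theorem exists_extra [Finite J] (hσ : ∀ j, σ (σ j) = j) (val : D → J → FreeGroup B)
    (t : D → ℕ) : ∃ E : Extra J B D, ∀ x, θ₀ σ E (.d x) = ⟨val x, t x⟩ := by
  choose W hW using fun x => exists_word (B := B) hσ (val x)
  refine ⟨⟨W, t, fun x => (W x).length + t x⟩, ?_⟩
  intro x
  show (((W x).map (kC σ)).prod * kT σ ^ t x) * (kc σ ^ ((W x).length + t x))⁻¹ = _
  rw [mul_inv_eq_iff_eq_mul, hW, kT_pow, kc_pow]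
  apply KG.ext'
  · intro j
    rw [KG.mul_f, KG.mul_f]
  · rw [KG.mul_n, KG.mul_n]
    push_cast; ring

end ext

section enc

variable {ι A : Type} [DecidableEq ι] [Fintype ι]

/-- exchange of the two sides -/
def flipσ (ι : Type) : Equiv.Perm (Bool × ι × Bool) where
  toFun j := (!j.1, j.2.1, j.2.2)
  invFun j := (!j.1, j.2.1, j.2.2)
  left_inv j := by simp
  right_inv j := by simp

omit [DecidableEq ι] [Fintype ι] in
theorem flipσ_flipσ (j : Bool × ι × Bool) : flipσ ι (flipσ ι j) = j := by
  simp [flipσ]

/-- an element of the product, given by its four components -/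
def mk4 {B : Type} (a b a' b' : ι → FreeGroup B) : Bool × ι × Bool → FreeGroup B
  | (true, k, true) => a k
  | (true, k, false) => b k
  | (false, k, true) => a' k
  | (false, k, false) => b' k

omit [DecidableEq ι] [Fintype ι] in
theorem mul4_zero {B : Type} (a b a' b' c d c' d' : ι → FreeGroup B) (m : ℤ) :
    (⟨mk4 a b a' b', 0⟩ * ⟨mk4 c d c' d', m⟩ : KG B (flipσ ι))
      = ⟨mk4 (a * c) (b * d) (a' * c') (b' * d'), m⟩ := by
  apply KG.ext'
  · rintro ⟨s, k, t⟩
    rw [KG.mul_f, zpow_zero]
    cases s <;> cases t <;> rfl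
  · rw [KG.mul_n, zero_add]

omit [DecidableEq ι] [Fintype ι] in
theorem mul4_one {B : Type} (a b a' b' c d c' d' : ι → FreeGroup B) (m : ℤ) :
    (⟨mk4 a b a' b', 1⟩ * ⟨mk4 c d c' d', m⟩ : KG B (flipσ ι))
      = ⟨mk4 (a * c') (b * d') (a' * c) (b' * d), 1 + m⟩ := by
  apply KG.ext'
  · rintro ⟨s, k, t⟩
    rw [KG.mul_f, zpow_one]
    cases s <;> cases t <;> rfl
  · rw [KG.mul_n]

/-- the extra generators -/
inductive Ext (ι A : Type) (n : ℕ) : Type
  | δ (k : ι) (b : Option A) : Ext ι A n
  | τ (x : Tile ι A n) : Ext ι A n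
  | γ : Ext ι A n

variable (R : List ((ι → List A) × (ι → List A))) (fin : ι → List A)

/-- the values of the extra generators -/
def extVal : Ext ι A R.length → Bool × ι × Bool → FreeGroup (Option A)
  | .δ k b => mk4 (Pi.mulSingle k (FreeGroup.of b)) (Pi.mulSingle k (FreeGroup.of b)) 1 1
  | .τ x => mk4 1 1 (fun k => (P (top R x k))⁻¹) (fun k => (P (bot R x k))⁻¹)
  | .γ => mk4 (fun k => P (hash (fin k))) 1 1 1

/-- the degrees of the extra generators -/
def extDeg : Ext ι A R.length → ℕ
  | .δ _ _ => 0
  | .τ _ => 0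
  | .γ => 1

variable {R fin} {E : Extra (Bool × ι × Bool) (Option A) (Ext ι A R.length)}

omit [Fintype ι] in
theorem deg_nonneg (hE : ∀ x, θ₀ (flipσ ι) E (.d x) = ⟨extVal R fin x, extDeg R x⟩)
    (x : List (Gen (Bool × ι × Bool) (Option A) (Ext ι A R.length))) :
    0 ≤ ((x.map (θ₀ (flipσ ι) E)).prod).n := by
  induction x with
  | nil => exact le_refl _
  | cons y x ih =>
    rw [List.map_cons, List.prod_cons, KG.mul_n]
    apply add_nonneg _ ih
    cases y with
    | c => show (0 : ℤ) ≤ 2; norm_num
    | T => show (0 : ℤ) ≤ 3; norm_num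
    | C j b e => show (0 : ℤ) ≤ 2; norm_num
    | d x => rw [hE]; exact Int.natCast_nonneg _

omit [Fintype ι] in
theorem deg_zero (hE : ∀ x, θ₀ (flipσ ι) E (.d x) = ⟨extVal R fin x, extDeg R x⟩)
    (x : List (Gen (Bool × ι × Bool) (Option A) (Ext ι A R.length)))
    (hx : ((x.map (θ₀ (flipσ ι) E)).prod).n = 0) :
    ∃ (u : ι → List (Option A)) (ts : List (Tile ι A R.length)),
      (x.map (θ₀ (flipσ ι) E)).prod = ⟨mk4 (fun k => P (u k)) (fun k => P (u k))
        (fun k => (P (tops R ts k))⁻¹) (fun k => (P (bots R ts k))⁻¹), 0⟩ := by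
  induction x with
  | nil =>
    refine ⟨fun _ => [], [], ?_⟩
    apply KG.ext'
    · rintro ⟨s, k, t⟩
      cases s <;> cases t <;> simp [mk4, KG.one_f, P_nil, tops, bots]
    · rfl
  | cons y x ih =>
    rw [List.map_cons, List.prod_cons] at hx ⊢
    rw [KG.mul_n] at hx
    have h0 := deg_nonneg hE x
    cases y with
    | c =>
      exfalso
      have : (θ₀ (flipσ ι) E .c).n = 2 := rfl
      omega
    | T =>
      exfalso
      have : (θ₀ (flipσ ι) E .T).n = 3 := rfl
      omega
    | C j b e =>
      exfalso
      have : (θ₀ (flipσ ι) E (.C j b e)).n = 2 := rfl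
      omega
    | d y =>
      rw [hE] at hx ⊢
      cases y with
      | δ k b =>
        have h1 : ((x.map (θ₀ (flipσ ι) E)).prod).n = 0 := by
          have : (extDeg R (Ext.δ k b : Ext ι A R.length) : ℤ) = 0 := rfl
          simp only [this] at hx
          omega
        obtain ⟨u, ts, h2⟩ := ih h1
        refine ⟨fun k' => (if k' = k then [b] else []) ++ u k', ts, ?_⟩
        rw [h2]
        have h3 : (⟨extVal R fin (Ext.δ k b), extDeg R (Ext.δ k b : Ext ι A R.length)⟩
            : KG (Option A) (flipσ ι)) = ⟨mk4 (Pi.mulSingle k (FreeGroup.of b))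
              (Pi.mulSingle k (FreeGroup.of b)) 1 1, 0⟩ := rfl
        rw [h3, mul4_zero]
        have h4 : (Pi.mulSingle k (FreeGroup.of b) * fun k => P (u k) : ι → FreeGroup (Option A))
            = fun k' => P ((if k' = k then [b] else []) ++ u k') := by
          funext k'
          rw [Pi.mul_apply, P_append]
          by_cases hk : k' = k
          · subst hk
            simp only [Pi.mulSingle_eq_same, if_true]
            rfl
          · simp only [Pi.mulSingle_eq_of_ne hk, hk, if_false, P_nil]
        rw [h4, one_mul, one_mul]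
      | τ τ =>
        have h1 : ((x.map (θ₀ (flipσ ι) E)).prod).n = 0 := by
          have : (extDeg R (Ext.τ τ : Ext ι A R.length) : ℤ) = 0 := rfl
          simp only [this] at hx
          omega
        obtain ⟨u, ts, h2⟩ := ih h1
        refine ⟨u, ts ++ [τ], ?_⟩
        rw [h2]
        have h3 : (⟨extVal R fin (Ext.τ τ), extDeg R (Ext.τ τ : Ext ι A R.length)⟩
            : KG (Option A) (flipσ ι)) = ⟨mk4 1 1 (fun k => (P (top R τ k))⁻¹)
              (fun k => (P (bot R τ k))⁻¹), 0⟩ := rfl
        rw [h3, mul4_zero, one_mul]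
        have h4 : ((fun k => (P (top R τ k))⁻¹) * (fun k => (P (tops R ts k))⁻¹)
            : ι → FreeGroup (Option A)) = fun k => (P (tops R (ts ++ [τ]) k))⁻¹ := by
          funext k
          rw [Pi.mul_apply, tops_append, P_append, mul_inv_rev]
          simp [tops]
        have h5 : ((fun k => (P (bot R τ k))⁻¹) * (fun k => (P (bots R ts k))⁻¹)
            : ι → FreeGroup (Option A)) = fun k => (P (bots R (ts ++ [τ]) k))⁻¹ := by
          funext k
          rw [Pi.mul_apply, bots_append, P_append, mul_inv_rev]
          simp [bots]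
        rw [h4, h5]
      | γ =>
        exfalso
        have : (extDeg R (Ext.γ : Ext ι A R.length) : ℤ) = 1 := rfl
        simp only [this] at hx
        omega

omit [Fintype ι] in
theorem deg_one (hE : ∀ x, θ₀ (flipσ ι) E (.d x) = ⟨extVal R fin x, extDeg R x⟩)
    (x : List (Gen (Bool × ι × Bool) (Option A) (Ext ι A R.length)))
    (hx : ((x.map (θ₀ (flipσ ι) E)).prod).n = 1) :
    ∃ (u : ι → List (Option A)) (ts : List (Tile ι A R.length)), ∀ k,
      ((x.map (θ₀ (flipσ ι) E)).prod).f (true, k, true)
        = P (u k) * P (hash (fin k)) * (P (tops R ts k))⁻¹ ∧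
      ((x.map (θ₀ (flipσ ι) E)).prod).f (true, k, false)
        = P (u k) * (P (bots R ts k))⁻¹ := by
  induction x with
  | nil =>
    exfalso
    have : (((([] : List (Gen (Bool × ι × Bool) (Option A) (Ext ι A R.length))).map
      (θ₀ (flipσ ι) E)).prod).n) = 0 := rfl
    omega
  | cons y x ih =>
    rw [List.map_cons, List.prod_cons] at hx ⊢
    rw [KG.mul_n] at hx
    have h0 := deg_nonneg hE x
    cases y with
    | c =>
      exfalso
      have : (θ₀ (flipσ ι) E .c).n = 2 := rfl
      omega
    | T =>
      exfalso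
      have : (θ₀ (flipσ ι) E .T).n = 3 := rfl
      omega
    | C j b e =>
      exfalso
      have : (θ₀ (flipσ ι) E (.C j b e)).n = 2 := rfl
      omega
    | d y =>
      rw [hE] at hx ⊢
      cases y with
      | δ k b =>
        have h1 : ((x.map (θ₀ (flipσ ι) E)).prod).n = 1 := by
          have : (extDeg R (Ext.δ k b : Ext ι A R.length) : ℤ) = 0 := rfl
          simp only [this] at hx
          omega
        obtain ⟨u, ts, h2⟩ := ih h1
        refine ⟨fun k' => (if k' = k then [b] else []) ++ u k', ts, ?_⟩
        intro k'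
        rw [KG.mul_f, KG.mul_f]
        have h3 : ∀ j, ((flipσ ι) ^ ((⟨extVal R fin (Ext.δ k b),
            extDeg R (Ext.δ k b : Ext ι A R.length)⟩ : KG (Option A) (flipσ ι)).n)) j = j := by
          intro j
          show ((flipσ ι) ^ (0 : ℤ)) j = j
          rw [zpow_zero]; rfl
        rw [h3, h3, (h2 k').1, (h2 k').2, P_append]
        show (Pi.mulSingle k (FreeGroup.of b) : ι → FreeGroup (Option A)) k' * _ = _ ∧
          (Pi.mulSingle k (FreeGroup.of b) : ι → FreeGroup (Option A)) k' * _ = _
        by_cases hk : k' = k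
        · subst hk
          simp only [Pi.mulSingle_eq_same, if_true, mul_assoc]
          exact ⟨rfl, rfl⟩
        · simp only [Pi.mulSingle_eq_of_ne hk, hk, if_false, P_nil, one_mul]
          exact ⟨trivial, trivial⟩
      | τ τ =>
        have h1 : ((x.map (θ₀ (flipσ ι) E)).prod).n = 1 := by
          have : (extDeg R (Ext.τ τ : Ext ι A R.length) : ℤ) = 0 := rfl
          simp only [this] at hx
          omega
        obtain ⟨u, ts, h2⟩ := ih h1
        refine ⟨u, ts, ?_⟩
        intro k'
        rw [KG.mul_f, KG.mul_f]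
        have h3 : ∀ j, ((flipσ ι) ^ ((⟨extVal R fin (Ext.τ τ),
            extDeg R (Ext.τ τ : Ext ι A R.length)⟩ : KG (Option A) (flipσ ι)).n)) j = j := by
          intro j
          show ((flipσ ι) ^ (0 : ℤ)) j = j
          rw [zpow_zero]; rfl
        rw [h3, h3, (h2 k').1, (h2 k').2]
        exact ⟨one_mul _, one_mul _⟩
      | γ =>
        have h1 : ((x.map (θ₀ (flipσ ι) E)).prod).n = 0 := by
          have : (extDeg R (Ext.γ : Ext ι A R.length) : ℤ) = 1 := rfl
          simp only [this] at hx
          omega
        obtain ⟨u, ts, h2⟩ := deg_zero hE x h1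
        refine ⟨fun _ => [], ts, ?_⟩
        intro k'
        rw [h2, KG.mul_f, KG.mul_f]
        have h3 : ∀ j, ((flipσ ι) ^ ((⟨extVal R fin (Ext.γ),
            extDeg R (Ext.γ : Ext ι A R.length)⟩ : KG (Option A) (flipσ ι)).n)) j
              = flipσ ι j := by
          intro j
          show ((flipσ ι) ^ (1 : ℤ)) j = _
          rw [zpow_one]
        rw [h3, h3, P_nil, one_mul, one_mul]
        exact ⟨rfl, one_mul _⟩

omit [Fintype ι] in
/-- the positive words evaluate to elements of `P0` -/
theorem d_mem (x : Ext ι A R.length) : θ₀ (flipσ ι) E (.d x) ∈ P0 (θ₀ (flipσ ι) E) := by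
  have := pos_mem_P0 (θ₀ (flipσ ι) E) [.d x]
  rwa [ev_pos_prod, List.map_singleton, List.prod_singleton] at this

theorem diag_mem (hE : ∀ x, θ₀ (flipσ ι) E (.d x) = ⟨extVal R fin x, extDeg R x⟩)
    (u : ι → List (Option A)) :
    (⟨mk4 (fun k => P (u k)) (fun k => P (u k)) 1 1, 0⟩ : KG (Option A) (flipσ ι))
      ∈ P0 (θ₀ (flipσ ι) E) := by
  let H : Submonoid (ι → FreeGroup (Option A)) :=
    { carrier := {g | (⟨mk4 g g 1 1, 0⟩ : KG (Option A) (flipσ ι)) ∈ P0 (θ₀ (flipσ ι) E)}
      one_mem' := by
        have := one_mem_P0 (θ₀ (flipσ ι) E)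
        have e : (⟨mk4 1 1 1 1, 0⟩ : KG (Option A) (flipσ ι)) = 1 := by
          apply KG.ext'
          · rintro ⟨s, k, t⟩
            cases s <;> cases t <;> rfl
          · rfl
        rwa [← e] at this
      mul_mem' := by
        intro a b ha hb
        have := mul_mem_P0 _ ha hb
        rwa [mul4_zero, one_mul] at this }
  have h1 : (fun k => P (u k)) ∈ H := by
    apply Submonoid.pi_mem_of_mulSingle_mem
    intro k
    generalize u k = l
    induction l with
    | nil => rw [P_nil, Pi.mulSingle_one]; exact H.one_mem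
    | cons b l ih =>
      rw [P_cons, Pi.mulSingle_mul]
      refine H.mul_mem ?_ ih
      have := d_mem (E := E) (Ext.δ k b)
      rwa [hE] at this
  exact h1

omit [Fintype ι] in
theorem tile_mem (hE : ∀ x, θ₀ (flipσ ι) E (.d x) = ⟨extVal R fin x, extDeg R x⟩)
    (ts : List (Tile ι A R.length)) :
    (⟨mk4 1 1 (fun k => (P (tops R ts k))⁻¹) (fun k => (P (bots R ts k))⁻¹), 0⟩
      : KG (Option A) (flipσ ι)) ∈ P0 (θ₀ (flipσ ι) E) := by
  induction ts with
  | nil =>
    have := one_mem_P0 (θ₀ (flipσ ι) E)
    have e : (⟨mk4 1 1 (fun k => (P (tops R [] k))⁻¹) (fun k => (P (bots R [] k))⁻¹), 0⟩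
        : KG (Option A) (flipσ ι)) = 1 := by
      apply KG.ext'
      · rintro ⟨s, k, t⟩
        cases s <;> cases t <;> simp [mk4, KG.one_f, P_nil, tops, bots]
      · rfl
    rwa [← e] at this
  | cons τ ts ih =>
    have h1 := d_mem (E := E) (Ext.τ τ)
    rw [hE] at h1
    have h2 : (⟨mk4 1 1 (fun k => (P (top R τ k))⁻¹) (fun k => (P (bot R τ k))⁻¹), 0⟩
        : KG (Option A) (flipσ ι)) ∈ P0 (θ₀ (flipσ ι) E) := h1
    have h3 := mul_mem_P0 _ ih h2
    rw [mul4_zero, one_mul] at h3
    have h4 : ((fun k => (P (tops R ts k))⁻¹) * (fun k => (P (top R τ k))⁻¹)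
        : ι → FreeGroup (Option A)) = fun k => (P (tops R (τ :: ts) k))⁻¹ := by
      funext k
      rw [Pi.mul_apply, tops, P_append, mul_inv_rev]
    have h5 : ((fun k => (P (bots R ts k))⁻¹) * (fun k => (P (bot R τ k))⁻¹)
        : ι → FreeGroup (Option A)) = fun k => (P (bots R (τ :: ts) k))⁻¹ := by
      funext k
      rw [Pi.mul_apply, bots, P_append, mul_inv_rev]
    rwa [h4, h5] at h3

/-- the reduction of reachability to membership -/
theorem mem_iff_reach (hE : ∀ x, θ₀ (flipσ ι) E (.d x) = ⟨extVal R fin x, extDeg R x⟩)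
    (w : ι → List A) :
    (⟨mk4 (fun k => P (hash (w k))) 1 1 1, 1⟩ : KG (Option A) (flipσ ι))
      ∈ P0 (θ₀ (flipσ ι) E) ↔ Relation.ReflTransGen (MStep R) w fin := by
  rw [reach_iff]
  constructor
  · rintro ⟨x, hx⟩
    rw [ev_pos_prod] at hx
    obtain ⟨u, ts, h⟩ := deg_one hE x (by rw [hx])
    refine ⟨ts, ?_⟩
    intro k
    have h1 := (h k).1
    have h2 := (h k).2
    rw [hx] at h1 h2
    have h3 : (1 : FreeGroup (Option A)) = P (u k) * (P (bots R ts k))⁻¹ := h2
    have h4 : P (hash (w k)) = P (u k) * P (hash (fin k)) * (P (tops R ts k))⁻¹ := h1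
    have h5 : P (u k) = P (bots R ts k) := mul_inv_eq_one.mp h3.symm
    apply P_injective
    rw [P_append, P_append, h4, h5, inv_mul_cancel_right]
  · rintro ⟨ts, hts⟩
    have h1 := diag_mem hE (fun k => bots R ts k)
    have h2 := tile_mem hE ts
    have h3 := d_mem (E := E) Ext.γ
    rw [hE] at h3
    have h4 : (⟨mk4 (fun k => P (hash (fin k))) 1 1 1, 1⟩ : KG (Option A) (flipσ ι))
        ∈ P0 (θ₀ (flipσ ι) E) := h3
    have h5 := mul_mem_P0 _ h1 (mul_mem_P0 _ h4 h2)
    rw [mul4_one, mul4_zero] at h5
    have h6 : ((fun k => P (bots R ts k)) * ((fun k => P (hash (fin k))) *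
        fun k => (P (tops R ts k))⁻¹) : ι → FreeGroup (Option A)) = fun k => P (hash (w k)) := by
      funext k
      show P (bots R ts k) * (P (hash (fin k)) * (P (tops R ts k))⁻¹) = P (hash (w k))
      rw [← mul_assoc, ← P_append, ← hts k, P_append, mul_inv_cancel_right]
    have h7 : ((fun k => P (bots R ts k)) * (1 * fun k => (P (bots R ts k))⁻¹)
        : ι → FreeGroup (Option A)) = 1 := by
      funext k
      show P (bots R ts k) * (1 * (P (bots R ts k))⁻¹) = 1
      rw [one_mul, mul_inv_cancel]
    rw [h6, h7, one_mul, one_mul] at h5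
    exact h5

end enc

end Pool.Agent.MP_ff4305_al
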