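import Pool.Agent.Lib.MP_ff4305_al.MStep

/-!
Stack machines as multi-stack suffix rewriting systems.
-/

namespace Pool.Agent.MP_ff4305_al

open Turing StateTransition

section micro

variable {K : Type} [DecidableEq K] {Γ Λ σ : Type}

/-- statements of a stack machine with stacks indexed by `K`, all with the alphabet `Γ` -/
abbrev St (K Γ Λ σ : Type) : Type := TM2.Stmt (fun _ : K => Γ) Λ σ

/-- micro configurations: a statement to be executed, the internal state and the stacks -/
abbrev MC (K Γ Λ σ : Type) : Type := (Option (St K Γ Λ σ) × σ) × (K → List Γ)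

/-- one micro step -/
def mu (M : Λ → St K Γ Λ σ) : MC K Γ Λ σ → Option (MC K Γ Λ σ)
  | ((none, _), _) => none
  | ((some (.push k f q), v), S) => some ((some q, v), Function.update S k (f v :: S k))
  | ((some (.peek k f q), v), S) => some ((some q, f v (S k).head?), S)
  | ((some (.pop k f q), v), S) => some ((some q, f v (S k).head?), Function.update S k (S k).tail)
  | ((some (.load a q), v), S) => some ((some q, a v), S)
  | ((some (.branch f q₁ q₂), v), S) => some ((some (cond (f v) q₁ q₂), v), S)
  | ((some (.goto f), v), S) => some ((some (M (f v)), v), S)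
  | ((some .halt, v), S) => some ((none, v), S)

/-- the micro configuration of a configuration -/
def menc (M : Λ → St K Γ Λ σ) : TM2.Cfg (fun _ : K => Γ) Λ σ → MC K Γ Λ σ
  | ⟨none, v, S⟩ => ((none, v), S)
  | ⟨some l, v, S⟩ => ((some (M l), v), S)

theorem mu_reaches (M : Λ → St K Γ Λ σ) (q : St K Γ Λ σ) : ∀ (v : σ) (S : K → List Γ),
    Reaches₁ (mu M) ((some q, v), S) (menc M (TM2.stepAux q v S)) := by
  induction q with
  | push k f q ih =>
    intro v S
    rw [TM2.stepAux]
    exact Relation.TransGen.head rfl (ih _ _)
  | peek k f q ih =>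
    intro v S
    rw [TM2.stepAux]
    exact Relation.TransGen.head rfl (ih _ _)
  | pop k f q ih =>
    intro v S
    rw [TM2.stepAux]
    exact Relation.TransGen.head rfl (ih _ _)
  | load a q ih =>
    intro v S
    rw [TM2.stepAux]
    exact Relation.TransGen.head rfl (ih _ _)
  | branch f q₁ q₂ ih₁ ih₂ =>
    intro v S
    rw [TM2.stepAux]
    cases h : f v with
    | true =>
      refine Relation.TransGen.head (b := ((some q₁, v), S)) ?_ (ih₁ _ _)
      show _ = _
      simp [mu, h]
    | false =>
      refine Relation.TransGen.head (b := ((some q₂, v), S)) ?_ (ih₂ _ _)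
      show _ = _
      simp [mu, h]
  | goto f =>
    intro v S
    rw [TM2.stepAux]
    exact Relation.TransGen.single rfl
  | halt =>
    intro v S
    rw [TM2.stepAux]
    exact Relation.TransGen.single rfl

theorem mu_respects (M : Λ → St K Γ Λ σ) :
    Respects (TM2.step M) (mu M) (fun a b => menc M a = b) := by
  rw [fun_respects]
  rintro ⟨l, v, S⟩
  cases l with
  | none => rfl
  | some l => exact mu_reaches M (M l) v S

/-- letters -/
inductive Letter (K Γ Λ σ : Type) : Type
  | ctl (o : Option (St K Γ Λ σ)) (v : σ) : Letter K Γ Λ σ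
  | sym (a : Γ) : Letter K Γ Λ σ
  | bot : Letter K Γ Λ σ

open Letter

/-- content of a stack: bottom marker, then the letters from bottom to top -/
def cont (l : List Γ) : List (Letter K Γ Λ σ) := bot :: l.reverse.map sym

/-- encoding of micro configurations -/
def senc (c : MC K Γ Λ σ) : Option K → List (Letter K Γ Λ σ)
  | none => [ctl c.1.1 c.1.2]
  | some k => cont (c.2 k)

/-- sides of rules -/
def side (x : Letter K Γ Λ σ) (g : K → List (Letter K Γ Λ σ)) : Option K → List (Letter K Γ Λ σ)
  | none => [x]
  | some k => g k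

/-- a list on one stack -/
def onl (k : K) (l : List (Letter K Γ Λ σ)) (k' : K) : List (Letter K Γ Λ σ) :=
  if k' = k then l else []

/-- The rules. -/
def rl (M : Λ → St K Γ Λ σ) : Option (St K Γ Λ σ) → σ → Option Γ →
    (Option K → List (Letter K Γ Λ σ)) × (Option K → List (Letter K Γ Λ σ))
  | none, v, _ => (side (ctl none v) (fun _ => []), side (ctl none v) (fun _ => []))
  | some (.push k f q), v, _ =>
      (side (ctl (some (.push k f q)) v) (onl k []), side (ctl (some q) v) (onl k [sym (f v)]))
  | some (.peek k f q), v, some a =>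
      (side (ctl (some (.peek k f q)) v) (onl k [sym a]),
        side (ctl (some q) (f v (some a))) (onl k [sym a]))
  | some (.peek k f q), v, none =>
      (side (ctl (some (.peek k f q)) v) (onl k [bot]),
        side (ctl (some q) (f v none)) (onl k [bot]))
  | some (.pop k f q), v, some a =>
      (side (ctl (some (.pop k f q)) v) (onl k [sym a]),
        side (ctl (some q) (f v (some a))) (onl k []))
  | some (.pop k f q), v, none =>
      (side (ctl (some (.pop k f q)) v) (onl k [bot]),
        side (ctl (some q) (f v none)) (onl k [bot]))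
  | some (.load a q), v, _ =>
      (side (ctl (some (.load a q)) v) (fun _ => []), side (ctl (some q) (a v)) (fun _ => []))
  | some (.branch f q₁ q₂), v, _ =>
      (side (ctl (some (.branch f q₁ q₂)) v) (fun _ => []),
        side (ctl (some (cond (f v) q₁ q₂)) v) (fun _ => []))
  | some (.goto f), v, _ =>
      (side (ctl (some (.goto f)) v) (fun _ => []), side (ctl (some (M (f v))) v) (fun _ => []))
  | some .halt, v, _ =>
      (side (ctl (some .halt) v) (fun _ => []), side (ctl none v) (fun _ => []))

theorem rl_fst_none (M : Λ → St K Γ Λ σ) (o : Option (St K Γ Λ σ)) (v : σ) (t : Option Γ) :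
    (rl M o v t).1 none = [ctl o v] := by
  rcases o with _ | q
  · rfl
  · cases q <;> cases t <;> rfl

omit [DecidableEq K] in
theorem cont_cons (a : Γ) (l : List Γ) :
    (cont (a :: l) : List (Letter K Γ Λ σ)) = cont l ++ [sym a] := by
  simp [cont]

omit [DecidableEq K] in
theorem cont_injective : Function.Injective (cont : List Γ → List (Letter K Γ Λ σ)) := by
  intro l l' h
  simp only [cont, List.cons.injEq, true_and] at h
  have h1 : Function.Injective (sym : Γ → Letter K Γ Λ σ) := by
    intro a b hab
    injection hab
  have h2 := List.map_injective_iff.mpr h1 h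
  exact List.reverse_injective h2

omit [DecidableEq K] in
theorem senc_injective : Function.Injective (senc : MC K Γ Λ σ → _) := by
  rintro ⟨⟨o, v⟩, S⟩ ⟨⟨o', v'⟩, S'⟩ h
  have h0 := congrFun h none
  have h1 : o = o' ∧ v = v' := by simpa [senc] using h0
  have h2 : S = S' := by
    funext k
    have h3 := congrFun h (some k)
    exact cont_injective h3
  rw [h1.1, h1.2, h2]

omit [DecidableEq K] in
theorem cont_ne_nil (l : List Γ) : (cont l : List (Letter K Γ Λ σ)) ≠ [] := by
  simp [cont]

omit [DecidableEq K] in
theorem cont_eq_sym (l : List Γ) (V : List (Letter K Γ Λ σ)) (a : Γ)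
    (h : cont l = V ++ [sym a]) : ∃ l', l = a :: l' ∧ V = cont l' := by
  cases l with
  | nil =>
    exfalso
    have h1 : ([] : List (Letter K Γ Λ σ)) ++ [bot] = V ++ [sym a] := h
    have h2 := List.append_inj_right' h1 rfl
    simp at h2
  | cons b l' =>
    rw [cont_cons] at h
    have h2 := List.append_inj_right' h rfl
    have h3 := List.append_inj_left' h rfl
    have h4 : b = a := by simpa using h2
    exact ⟨l', by rw [h4], h3.symm⟩

omit [DecidableEq K] in
theorem cont_eq_bot (l : List Γ) (V : List (Letter K Γ Λ σ))
    (h : cont l = V ++ [bot]) : l = [] := by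
  cases l with
  | nil => rfl
  | cons b l' =>
    exfalso
    rw [cont_cons] at h
    have h2 := List.append_inj_right' h rfl
    simp at h2

theorem fwd_one {R : List ((Option K → List (Letter K Γ Λ σ)) ×
      (Option K → List (Letter K Γ Λ σ)))}
    {o o' : Option (St K Γ Λ σ)} {v v' : σ} {k : K} {l r : List (Letter K Γ Λ σ)}
    {S S' : K → List Γ} (V : List (Letter K Γ Λ σ)) (hk : cont (S k) = V ++ l)
    (hk' : cont (S' k) = V ++ r) (hne : ∀ k', k' ≠ k → S' k' = S k')
    (hR : (side (ctl o v) (onl k l), side (ctl o' v') (onl k r)) ∈ R) :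
    MStep R (senc ((o, v), S)) (senc ((o', v'), S')) := by
  refine ⟨_, hR, fun i => i.elim [] (fun k' => if k' = k then V else cont (S k')), ?_, ?_⟩
  · intro i
    cases i with
    | none => rfl
    | some k' =>
      show cont (S k') = (if k' = k then V else cont (S k')) ++ onl k l k'
      by_cases h : k' = k
      · subst h; rw [if_pos rfl, onl, if_pos rfl, hk]
      · rw [if_neg h, onl, if_neg h, List.append_nil]
  · intro i
    cases i with
    | none => rfl
    | some k' =>
      show cont (S' k') = (if k' = k then V else cont (S k')) ++ onl k r k'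
      by_cases h : k' = k
      · subst h; rw [if_pos rfl, onl, if_pos rfl, hk']
      · rw [if_neg h, onl, if_neg h, List.append_nil, hne k' h]

omit [DecidableEq K] in
theorem fwd_none {R : List ((Option K → List (Letter K Γ Λ σ)) ×
      (Option K → List (Letter K Γ Λ σ)))}
    {o o' : Option (St K Γ Λ σ)} {v v' : σ} {S : K → List Γ}
    (hR : (side (ctl o v) (fun _ => []), side (ctl o' v') (fun _ => [])) ∈ R) :
    MStep R (senc ((o, v), S)) (senc ((o', v'), S)) := by
  refine ⟨_, hR, fun i => i.elim [] (fun k' => cont (S k')), ?_, ?_⟩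
  · intro i
    cases i with
    | none => rfl
    | some k' => exact (List.append_nil _).symm
  · intro i
    cases i with
    | none => rfl
    | some k' => exact (List.append_nil _).symm

theorem bwd_one {o₀ o o' : Option (St K Γ Λ σ)} {v₀ v v' : σ} {k : K}
    {l r : List (Letter K Γ Λ σ)} {S : K → List Γ}
    {x V : Option K → List (Letter K Γ Λ σ)}
    (h1 : ∀ i, senc ((o₀, v₀), S) i = V i ++ side (ctl o v) (onl k l) i)
    (h2 : ∀ i, x i = V i ++ side (ctl o' v') (onl k r) i) :
    o₀ = o ∧ v₀ = v ∧ cont (S k) = V (some k) ++ l ∧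
      ∀ l' : List Γ, cont l' = V (some k) ++ r →
        x = senc ((o', v'), Function.update S k l') := by
  have e1 : [ctl o₀ v₀] = V none ++ [ctl o v] := h1 none
  have e2 : V none = [] := by
    have := congrArg List.length e1
    rw [List.length_append] at this
    simp only [List.length_singleton] at this
    exact List.length_eq_zero_iff.mp (by omega)
  rw [e2] at e1
  have e3 : o₀ = o ∧ v₀ = v := by simpa using e1
  have e4 : cont (S k) = V (some k) ++ l := by
    have := h1 (some k)
    simpa [senc, side, onl] using this
  refine ⟨e3.1, e3.2, e4, ?_⟩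
  intro l' hl'
  funext i
  cases i with
  | none =>
    rw [h2, e2]; rfl
  | some k' =>
    rw [h2]
    show V (some k') ++ onl k r k' = cont (Function.update S k l' k')
    by_cases h : k' = k
    · subst h
      rw [Function.update_self, onl, if_pos rfl, hl']
    · rw [Function.update_of_ne h, onl, if_neg h, List.append_nil]
      have h3 := h1 (some k')
      have h4 : cont (S k') = V (some k') ++ onl k l k' := h3
      rw [h4, onl, if_neg h, List.append_nil]

omit [DecidableEq K] in
theorem bwd_none {o₀ o o' : Option (St K Γ Λ σ)} {v₀ v v' : σ} {S : K → List Γ}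
    {x V : Option K → List (Letter K Γ Λ σ)}
    (h1 : ∀ i, senc ((o₀, v₀), S) i = V i ++ side (ctl o v) (fun _ => []) i)
    (h2 : ∀ i, x i = V i ++ side (ctl o' v') (fun _ => []) i) :
    o₀ = o ∧ v₀ = v ∧ x = senc ((o', v'), S) := by
  have e1 : [ctl o₀ v₀] = V none ++ [ctl o v] := h1 none
  have e2 : V none = [] := by
    have := congrArg List.length e1
    rw [List.length_append] at this
    simp only [List.length_singleton] at this
    exact List.length_eq_zero_iff.mp (by omega)
  rw [e2] at e1
  have e3 : o₀ = o ∧ v₀ = v := by simpa using e1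
  refine ⟨e3.1, e3.2, ?_⟩
  funext i
  cases i with
  | none => rw [h2, e2]; rfl
  | some k' =>
    rw [h2]
    have h3 : cont (S k') = V (some k') ++ [] := h1 (some k')
    exact h3.symm

/-- forward simulation -/
theorem forward (M : Λ → St K Γ Λ σ)
    (R : List ((Option K → List (Letter K Γ Λ σ)) × (Option K → List (Letter K Γ Λ σ))))
    (c c' : MC K Γ Λ σ) (hR : ∀ t, rl M c.1.1 c.1.2 t ∈ R) (h : mu M c = some c') :
    MStep R (senc c) (senc c') := by
  obtain ⟨⟨o, v⟩, S⟩ := c
  rcases o with _ | q
  · exact absurd h (by simp [mu])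
  cases q with
  | push k f q =>
    have e : c' = ((some q, v), Function.update S k (f v :: S k)) := by
      simpa [mu, eq_comm] using h
    subst e
    refine fwd_one (cont (S k)) (List.append_nil _).symm ?_ ?_ (hR none)
    · rw [Function.update_self, cont_cons]
    · intro k' h; rw [Function.update_of_ne h]
  | peek k f q =>
    have e : c' = ((some q, f v (S k).head?), S) := by
      simpa [mu, eq_comm] using h
    subst e
    cases hS : S k with
    | nil =>
      refine fwd_one (k := k) [] ?_ ?_ (fun _ _ => rfl) (hR none)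
      · rw [hS]; rfl
      · rw [hS]; rfl
    | cons a l =>
      refine fwd_one (k := k) (cont l) ?_ ?_ (fun _ _ => rfl) (hR (some a))
      · rw [hS, cont_cons]
      · rw [hS, cont_cons]
  | pop k f q =>
    have e : c' = ((some q, f v (S k).head?), Function.update S k (S k).tail) := by
      simpa [mu, eq_comm] using h
    subst e
    cases hS : S k with
    | nil =>
      refine fwd_one (k := k) [] ?_ ?_ ?_ (hR none)
      · rw [hS]; rfl
      · rw [Function.update_self]; rfl
      · intro k' h; rw [Function.update_of_ne h]
    | cons a l =>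
      refine fwd_one (k := k) (cont l) ?_ ?_ ?_ (hR (some a))
      · rw [hS, cont_cons]
      · rw [Function.update_self, List.tail_cons, List.append_nil]
      · intro k' h; rw [Function.update_of_ne h]
  | load a q =>
    have e : c' = ((some q, a v), S) := by
      simpa [mu, eq_comm] using h
    subst e
    exact fwd_none (hR none)
  | branch f q₁ q₂ =>
    have e : c' = ((some (cond (f v) q₁ q₂), v), S) := by
      simpa [mu, eq_comm] using h
    subst e
    exact fwd_none (hR none)
  | goto f =>
    have e : c' = ((some (M (f v)), v), S) := by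
      simpa [mu, eq_comm] using h
    subst e
    exact fwd_none (hR none)
  | halt =>
    have e : c' = ((none, v), S) := by
      simpa [mu, eq_comm] using h
    subst e
    exact fwd_none (hR none)

/-- backward simulation -/
theorem backward (M : Λ → St K Γ Λ σ)
    (R : List ((Option K → List (Letter K Γ Λ σ)) × (Option K → List (Letter K Γ Λ σ))))
    (hR : ∀ r ∈ R, ∃ o v t, r = rl M o v t) (c : MC K Γ Λ σ)
    (x : Option K → List (Letter K Γ Λ σ)) (h : MStep R (senc c) x) :
    ∃ c', x = senc c' ∧ Reaches (mu M) c c' := by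
  obtain ⟨⟨o₀, v₀⟩, S⟩ := c
  obtain ⟨r, hr, V, h1, h2⟩ := h
  obtain ⟨o, v, t, rfl⟩ := hR r hr
  rcases o with _ | q
  · obtain ⟨rfl, rfl, rfl⟩ := bwd_none h1 h2
    exact ⟨_, rfl, Relation.ReflTransGen.refl⟩
  cases q with
  | push k f q =>
    obtain ⟨rfl, rfl, e, hx⟩ := bwd_one h1 h2
    refine ⟨_, hx (f v₀ :: S k) ?_, Relation.ReflTransGen.single rfl⟩
    rw [cont_cons, e, List.append_nil]
  | peek k f q =>
    cases t with
    | none =>
      obtain ⟨rfl, rfl, e, hx⟩ := bwd_one h1 h2
      have e1 := cont_eq_bot _ _ e
      refine ⟨_, hx (S k) e, Relation.ReflTransGen.single ?_⟩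
      show _ = _
      rw [Function.update_eq_self]
      simp [mu, e1]
    | some a =>
      obtain ⟨rfl, rfl, e, hx⟩ := bwd_one h1 h2
      obtain ⟨l', e1, _⟩ := cont_eq_sym _ _ _ e
      refine ⟨_, hx (S k) e, Relation.ReflTransGen.single ?_⟩
      show _ = _
      rw [Function.update_eq_self]
      simp [mu, e1]
  | pop k f q =>
    cases t with
    | none =>
      obtain ⟨rfl, rfl, e, hx⟩ := bwd_one h1 h2
      have e1 := cont_eq_bot _ _ e
      refine ⟨_, hx (S k) e, Relation.ReflTransGen.single ?_⟩
      show _ = _
      simp [mu, e1]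
    | some a =>
      obtain ⟨rfl, rfl, e, hx⟩ := bwd_one h1 h2
      obtain ⟨l', e1, e2⟩ := cont_eq_sym _ _ _ e
      refine ⟨_, hx l' (by rw [e2, List.append_nil]), Relation.ReflTransGen.single ?_⟩
      show _ = _
      simp [mu, e1]
  | load a q =>
    obtain ⟨rfl, rfl, rfl⟩ := bwd_none h1 h2
    exact ⟨_, rfl, Relation.ReflTransGen.single rfl⟩
  | branch f q₁ q₂ =>
    obtain ⟨rfl, rfl, rfl⟩ := bwd_none h1 h2
    exact ⟨_, rfl, Relation.ReflTransGen.single rfl⟩
  | goto f =>
    obtain ⟨rfl, rfl, rfl⟩ := bwd_none h1 h2
    exact ⟨_, rfl, Relation.ReflTransGen.single rfl⟩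
  | halt =>
    obtain ⟨rfl, rfl, rfl⟩ := bwd_none h1 h2
    exact ⟨_, rfl, Relation.ReflTransGen.single rfl⟩

variable [Inhabited Λ]

theorem mu_supports (M : Λ → St K Γ Λ σ) (T : Finset Λ) (hT : TM2.Supports M T)
    (c c' : MC K Γ Λ σ) (hc : c.1.1 ∈ TM2.stmts M T) (h : mu M c = some c') :
    c'.1.1 ∈ TM2.stmts M T := by
  classical
  obtain ⟨⟨o, v⟩, S⟩ := c
  rcases o with _ | q
  · exact absurd h (by simp [mu])
  have hc' : some q ∈ TM2.stmts M T := hc
  cases q with
  | push k f q =>
    have e : c' = ((some q, v), Function.update S k (f v :: S k)) := by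
      simpa [mu, eq_comm] using h
    subst e
    exact TM2.stmts_trans (by unfold TM2.stmts₁; exact Finset.mem_insert_of_mem TM2.stmts₁_self) hc'
  | peek k f q =>
    have e : c' = ((some q, f v (S k).head?), S) := by
      simpa [mu, eq_comm] using h
    subst e
    exact TM2.stmts_trans (by unfold TM2.stmts₁; exact Finset.mem_insert_of_mem TM2.stmts₁_self) hc'
  | pop k f q =>
    have e : c' = ((some q, f v (S k).head?), Function.update S k (S k).tail) := by
      simpa [mu, eq_comm] using h
    subst e
    exact TM2.stmts_trans (by unfold TM2.stmts₁; exact Finset.mem_insert_of_mem TM2.stmts₁_self) hc'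
  | load a q =>
    have e : c' = ((some q, a v), S) := by
      simpa [mu, eq_comm] using h
    subst e
    exact TM2.stmts_trans (by unfold TM2.stmts₁; exact Finset.mem_insert_of_mem TM2.stmts₁_self) hc'
  | branch f q₁ q₂ =>
    have e : c' = ((some (cond (f v) q₁ q₂), v), S) := by
      simpa [mu, eq_comm] using h
    subst e
    cases f v with
    | true =>
      exact TM2.stmts_trans (by
        unfold TM2.stmts₁
        exact Finset.mem_insert_of_mem (Finset.mem_union_left _ TM2.stmts₁_self)) hc'
    | false =>
      exact TM2.stmts_trans (by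
        unfold TM2.stmts₁
        exact Finset.mem_insert_of_mem (Finset.mem_union_right _ TM2.stmts₁_self)) hc'
  | goto f =>
    have e : c' = ((some (M (f v)), v), S) := by
      simpa [mu, eq_comm] using h
    subst e
    have h1 := TM2.stmts_supportsStmt hT hc' v
    show some (M (f v)) ∈ TM2.stmts M T
    unfold TM2.stmts
    rw [Finset.some_mem_insertNone, Finset.mem_biUnion]
    exact ⟨f v, h1, TM2.stmts₁_self⟩
  | halt =>
    have e : c' = ((none, v), S) := by
      simpa [mu, eq_comm] using h
    subst e
    show none ∈ TM2.stmts M T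
    unfold TM2.stmts
    exact Finset.none_mem_insertNone

/-- reachability for the machine and for the rewriting system -/
theorem reaches_iff (M : Λ → St K Γ Λ σ) (T : Finset Λ) (hT : TM2.Supports M T)
    (R : List ((Option K → List (Letter K Γ Λ σ)) × (Option K → List (Letter K Γ Λ σ))))
    (hR : ∀ r, r ∈ R ↔ ∃ o ∈ TM2.stmts M T, ∃ v t, r = rl M o v t)
    (c c' : MC K Γ Λ σ) (hc : c.1.1 ∈ TM2.stmts M T) :
    Reaches (mu M) c c' ↔ Relation.ReflTransGen (MStep R) (senc c) (senc c') := by
  constructor
  · intro h
    have : Relation.ReflTransGen (MStep R) (senc c) (senc c') ∧ c'.1.1 ∈ TM2.stmts M T := by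
      induction h with
      | refl => exact ⟨Relation.ReflTransGen.refl, hc⟩
      | tail _ h ih =>
        refine ⟨ih.1.tail ?_, mu_supports M T hT _ _ ih.2 h⟩
        exact forward M R _ _ (fun t => (hR _).mpr ⟨_, ih.2, _, t, rfl⟩) h
    exact this.1
  · intro h
    have : ∀ y, Relation.ReflTransGen (MStep R) (senc c) y →
        ∃ d, y = senc d ∧ Reaches (mu M) c d := by
      intro y hy
      induction hy with
      | refl => exact ⟨c, rfl, Relation.ReflTransGen.refl⟩
      | tail _ h ih =>
        obtain ⟨d, rfl, hd⟩ := ih
        obtain ⟨d', rfl, hd'⟩ := backward M R (by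
          intro r hr
          obtain ⟨o, _, v, t, e⟩ := (hR r).mp hr
          exact ⟨o, v, t, e⟩) _ _ h
        exact ⟨d', rfl, hd.trans hd'⟩
    obtain ⟨d, e, hd⟩ := this _ h
    rw [senc_injective e]
    exact hd

end micro

end Pool.Agent.MP_ff4305_al
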