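import Pool.Agent.Lib.MP_ff4305_al.Defs

/-!
Special inverse monoids generated by right units, with right reversible monoid of right units.
-/

namespace Pool.Agent.MP_ff4305_al

open FreeGroup (invRev)

section basic

variable {X : Type} {rels : Set (Word X)}

theorem invMk_append (u v : Word X) : invMk rels (u ++ v) = invMk rels u * invMk rels v := rfl

theorem invMk_nil : invMk rels [] = 1 := rfl

theorem invMk_surj (s : SpecialInv rels) : ∃ w, invMk rels w = s := by
  induction s using Con.induction_on with
  | _ x => exact ⟨FreeMonoid.toList x, rfl⟩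

theorem conRel {x y : FreeMonoid (X × Bool)} (h : InvRel rels x y) :
    ((x : (conGen (InvRel rels)).Quotient)) = (y : (conGen (InvRel rels)).Quotient) :=
  (Con.eq _).mpr (ConGen.Rel.of _ _ h)

theorem invMk_inv (u : Word X) :
    invMk rels u * invMk rels (invRev u) * invMk rels u = invMk rels u :=
  conRel (InvRel.inv u)

theorem invMk_comm (u v : Word X) :
    invMk rels u * invMk rels (invRev u) * (invMk rels v * invMk rels (invRev v))
      = invMk rels v * invMk rels (invRev v) * (invMk rels u * invMk rels (invRev u)) :=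
  conRel (InvRel.comm u v)

theorem invMk_rel {w : Word X} (h : w ∈ rels) : invMk rels w = 1 := conRel (InvRel.rel w h)

/-- positive words -/
def pos (x : List X) : Word X := x.map fun a => (a, true)

theorem pos_append (x y : List X) : pos (x ++ y) = pos x ++ pos y := List.map_append

theorem pos_cons (a : X) (x : List X) : pos (a :: x) = [(a, true)] ++ pos x := rfl

theorem pos_nil : pos ([] : List X) = [] := rfl

theorem invRev_single (a : X) (b : Bool) : invRev [(a, b)] = [(a, !b)] := rfl

variable {K : Type} [Group K] (θ : X → K)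

/-- evaluation of words in the group `K` -/
def ev (w : Word X) : K := FreeGroup.lift θ (FreeGroup.mk w)

theorem ev_append (u v : Word X) : ev θ (u ++ v) = ev θ u * ev θ v := by
  simp only [ev, ← FreeGroup.mul_mk, map_mul]

theorem ev_invRev (u : Word X) : ev θ (invRev u) = (ev θ u)⁻¹ := by
  simp only [ev, ← FreeGroup.inv_mk, map_inv]

theorem ev_nil : ev θ [] = 1 := by
  simp only [ev, ← FreeGroup.one_eq_mk, map_one]

theorem ev_single (a : X) : ev θ [(a, true)] = θ a := by
  simp [ev]

theorem ev_pos_cons (a : X) (x : List X) : ev θ (pos (a :: x)) = θ a * ev θ (pos x) := by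
  rw [pos_cons, ev_append, ev_single]

theorem ev_pos_append (x y : List X) : ev θ (pos (x ++ y)) = ev θ (pos x) * ev θ (pos y) := by
  rw [pos_append, ev_append]

/-- the submonoid generated by the images of the letters -/
def P0 : Set K := {k | ∃ x : List X, ev θ (pos x) = k}

theorem one_mem_P0 : (1 : K) ∈ P0 θ := ⟨[], ev_nil θ⟩

theorem pos_mem_P0 (x : List X) : ev θ (pos x) ∈ P0 θ := ⟨x, rfl⟩

theorem mul_mem_P0 {p q : K} (hp : p ∈ P0 θ) (hq : q ∈ P0 θ) : p * q ∈ P0 θ := by
  obtain ⟨x, rfl⟩ := hp
  obtain ⟨y, rfl⟩ := hq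
  exact ⟨x ++ y, ev_pos_append θ x y⟩

/-- all vertices of the path labelled `w` from `p`, except possibly `p`, are in `P0` -/
def Stays : Word X → K → Prop
  | [], _ => True
  | a :: w, p => p * ev θ [a] ∈ P0 θ ∧ Stays w (p * ev θ [a])

theorem ev_cons (a : X × Bool) (w : Word X) : ev θ (a :: w) = ev θ [a] * ev θ w :=
  ev_append θ [a] w

theorem stays_append (u v : Word X) : ∀ p : K,
    Stays θ (u ++ v) p ↔ Stays θ u p ∧ Stays θ v (p * ev θ u) := by
  induction u with
  | nil => intro p; simp [Stays, ev_nil]
  | cons a u ih =>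
    intro p
    rw [List.cons_append]
    simp only [Stays]
    rw [ih, ev_cons θ a u, mul_assoc, and_assoc]

theorem stays_end (u : Word X) : ∀ p ∈ P0 θ, Stays θ u p → p * ev θ u ∈ P0 θ := by
  induction u with
  | nil => intro p hp _; rw [ev_nil, mul_one]; exact hp
  | cons a u ih =>
    intro p hp h
    rw [ev_cons, ← mul_assoc]
    exact ih _ h.1 h.2

theorem stays_back (u : Word X) : ∀ p ∈ P0 θ, Stays θ u p → Stays θ (invRev u) (p * ev θ u) := by
  induction u with
  | nil => intro p _ _; trivial
  | cons a u ih =>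
    intro p hp h
    rw [FreeGroup.invRev_cons, stays_append, ev_cons, ← mul_assoc]
    refine ⟨ih _ h.1 h.2, ?_⟩
    rw [ev_invRev, mul_inv_cancel_right]
    obtain ⟨a, b⟩ := a
    rw [invRev_single]
    refine ⟨?_, trivial⟩
    have : ev θ [(a, !b)] = (ev θ [(a, b)])⁻¹ := by
      rw [← ev_invRev, invRev_single]
    rw [this, mul_inv_cancel_right]
    exact hp

theorem stays_pos (x : List X) : ∀ p ∈ P0 θ, Stays θ (pos x) p := by
  induction x with
  | nil => intro p _; trivial
  | cons a x ih =>
    intro p hp
    have h1 : p * ev θ [(a, true)] ∈ P0 θ := mul_mem_P0 θ hp (pos_mem_P0 θ [a])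
    exact ⟨h1, ih _ h1⟩

end basic

section con

variable {X : Type} (rels : Set (Word X)) {K : Type} [Group K] (θ : X → K)

/-- the congruence of equality in the group and of equal domains -/
def stayCon : Con (FreeMonoid (X × Bool)) where
  r x y := ev θ (FreeMonoid.toList x) = ev θ (FreeMonoid.toList y) ∧
    ∀ p ∈ P0 θ, (Stays θ (FreeMonoid.toList x) p ↔ Stays θ (FreeMonoid.toList y) p)
  iseqv :=
    { refl := fun x => ⟨rfl, fun p _ => Iff.rfl⟩
      symm := fun h => ⟨h.1.symm, fun p hp => (h.2 p hp).symm⟩
      trans := fun h h' => ⟨h.1.trans h'.1, fun p hp => (h.2 p hp).trans (h'.2 p hp)⟩ }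
  mul' := by
    rintro w x y z ⟨h1, h2⟩ ⟨h3, h4⟩
    constructor
    · rw [FreeMonoid.toList_mul, FreeMonoid.toList_mul, ev_append, ev_append, h1, h3]
    · intro p hp
      rw [FreeMonoid.toList_mul, FreeMonoid.toList_mul, stays_append, stays_append, h1]
      constructor
      · rintro ⟨h5, h6⟩
        have h7 := (h2 p hp).mp h5
        have h8 := stays_end θ _ p hp h7
        exact ⟨h7, (h4 _ h8).mp h6⟩
      · rintro ⟨h5, h6⟩
        have h8 := stays_end θ _ p hp h5
        exact ⟨(h2 p hp).mpr h5, (h4 _ h8).mpr h6⟩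

variable {rels}

theorem eq_imp_stays (hone : ∀ w ∈ rels, ev θ w = 1)
    (hstay : ∀ w ∈ rels, ∀ p ∈ P0 θ, Stays θ w p) {u v : Word X}
    (h : invMk rels u = invMk rels v) :
    ev θ u = ev θ v ∧ ∀ p ∈ P0 θ, (Stays θ u p ↔ Stays θ v p) := by
  have hle : conGen (InvRel rels) ≤ stayCon θ := by
    apply Con.conGen_le.mpr
    intro x y hxy
    cases hxy with
    | inv u =>
      refine ⟨?_, ?_⟩
      · simp only [FreeMonoid.toList_ofList, ev_append, ev_invRev]; group
      · intro p hp
        simp only [FreeMonoid.toList_ofList, stays_append, ev_append, ev_invRev]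
        constructor
        · rintro ⟨⟨h1, _⟩, _⟩; exact h1
        · intro h1
          refine ⟨⟨h1, stays_back θ u p hp h1⟩, ?_⟩
          rw [mul_inv_cancel, mul_one]; exact h1
    | comm u v =>
      refine ⟨?_, ?_⟩
      · simp only [FreeMonoid.toList_ofList, ev_append, ev_invRev]; group
      · intro p hp
        simp only [FreeMonoid.toList_ofList, stays_append, ev_append, ev_invRev, mul_inv_cancel,
          mul_one]
        constructor
        · rintro ⟨⟨h1, h2⟩, h3, h4⟩; exact ⟨⟨h3, h4⟩, h1, h2⟩
        · rintro ⟨⟨h1, h2⟩, h3, h4⟩; exact ⟨⟨h3, h4⟩, h1, h2⟩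
    | rel w h =>
      refine ⟨?_, ?_⟩
      · rw [FreeMonoid.toList_ofList, hone w h]; exact (ev_nil θ).symm
      · intro p hp
        rw [FreeMonoid.toList_ofList]
        exact ⟨fun _ => trivial, fun _ => hstay w h p hp⟩
  exact hle ((Con.eq _).mp h)

end con

/-- The properties of a presentation used below. -/
structure Good {X : Type} (rels : Set (Word X)) {K : Type} [Group K] (θ : X → K) : Prop where
  unit : ∀ a, invMk rels [(a, true)] * invMk rels [(a, false)] = 1
  one : ∀ w ∈ rels, ev θ w = 1
  stay : ∀ w ∈ rels, ∀ p ∈ P0 θ, Stays θ w p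
  complete : ∀ x z : List X, ev θ (pos x) = ev θ (pos z) →
    invMk rels (pos x) = invMk rels (pos z)
  ore : ∀ a ∈ P0 θ, ∀ b ∈ P0 θ, ∃ c ∈ P0 θ, ∃ d ∈ P0 θ, a * c = b * d
  grp : ∀ w, ev θ w = 1 → grpMk rels w = 1

namespace Good

variable {X : Type} {rels : Set (Word X)} {K : Type} [Group K] {θ : X → K}

theorem pos_unit (hG : Good rels θ) (x : List X) :
    invMk rels (pos x) * invMk rels (invRev (pos x)) = 1 := by
  induction x with
  | nil => exact one_mul 1
  | cons a x ih =>
    rw [pos_cons, FreeGroup.invRev_append, invMk_append, invMk_append, mul_assoc,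
      ← mul_assoc (invMk rels (pos x)), ih, one_mul, invRev_single]
    exact hG.unit a

theorem grp_eq (hG : Good rels θ) {u v : Word X} (h : ev θ u = ev θ v) :
    grpMk rels u = grpMk rels v := by
  have h1 : ev θ (u ++ invRev v) = 1 := by
    rw [ev_append, ev_invRev, h, mul_inv_cancel]
  have h2 := hG.grp _ h1
  rw [grpMk_append, grpMk_invRev] at h2
  exact mul_inv_eq_one.mp h2

theorem ev_of_grp (hG : Good rels θ) {u v : Word X} (h : grpMk rels u = grpMk rels v) :
    ev θ u = ev θ v := by
  have hh : ∀ r ∈ ((fun w : Word X => FreeGroup.mk w) '' rels), FreeGroup.lift θ r = 1 := by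
    rintro _ ⟨w, hw, rfl⟩
    exact hG.one w hw
  have := congrArg (PresentedGroup.toGroup hh) h
  exact this

/-- normal form of the elements -/
theorem exists_form (hG : Good rels θ) (w : Word X) : ∃ (u : Word X) (x z : List X),
    invMk rels w = invMk rels u * invMk rels (invRev u) *
      (invMk rels (pos x) * invMk rels (invRev (pos z))) := by
  induction w using List.reverseRecOn with
  | nil =>
    refine ⟨[], [], [], ?_⟩
    show (1 : SpecialInv rels) = 1 * 1 * (1 * 1)
    simp
  | append_singleton w a ih =>
    obtain ⟨u, x, z, e⟩ := ih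
    obtain ⟨a, b⟩ := a
    cases b with
    | false =>
      refine ⟨u, x, a :: z, ?_⟩
      rw [invMk_append, e, pos_cons, FreeGroup.invRev_append, invMk_append, invRev_single]
      simp only [mul_assoc]
      rfl
    | true =>
      obtain ⟨c, ⟨p, hp⟩, d, ⟨q, hq⟩, hcd⟩ := hG.ore _ (pos_mem_P0 θ z) _ (pos_mem_P0 θ [a])
      have h1 : invMk rels (pos z) * invMk rels (pos p)
          = invMk rels [(a, true)] * invMk rels (pos q) := by
        have := hG.complete (z ++ p) ([a] ++ q) (by
          rw [ev_pos_append, ev_pos_append, hp, hq, hcd])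
        rw [pos_append, pos_append, invMk_append, invMk_append] at this
        exact this
      have hq1 := hG.pos_unit q
      refine ⟨u ++ invRev u ++ (pos x ++ invRev (pos z)), x ++ p, q, ?_⟩
      rw [invMk_append, e]
      simp only [FreeGroup.invRev_append, FreeGroup.invRev_invRev, invMk_append, pos_append]
      -- abbreviations
      generalize hU : invMk rels u = U at *
      generalize hU' : invMk rels (invRev u) = U' at *
      generalize hXx : invMk rels (pos x) = A at *
      generalize hX' : invMk rels (invRev (pos x)) = A' at *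
      generalize hZ : invMk rels (pos z) = Z at *
      generalize hZ' : invMk rels (invRev (pos z)) = Z' at *
      generalize hP : invMk rels (pos p) = P at *
      generalize hQ : invMk rels (pos q) = Q at *
      generalize hQ' : invMk rels (invRev (pos q)) = Q' at *
      generalize hY : invMk rels [(a, true)] = Y at *
      -- relations
      have r1 : A * A' * A = A := by rw [← hXx, ← hX']; exact invMk_inv _
      have r2 : A' * A * (Z' * Z) = Z' * Z * (A' * A) := by
        have := invMk_comm (rels := rels) (invRev (pos x)) (invRev (pos z))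
        simp only [FreeGroup.invRev_invRev, hXx, hX', hZ, hZ'] at this
        exact this
      have r3 : (U * U') * (A * Z' * (Z * A')) = (A * Z' * (Z * A')) * (U * U') := by
        have := invMk_comm (rels := rels) u (pos x ++ invRev (pos z))
        simp only [FreeGroup.invRev_append, FreeGroup.invRev_invRev, invMk_append, hXx, hX', hZ,
          hZ', hU, hU'] at this
        exact this
      have r4 : U * U' * U = U := by rw [← hU, ← hU']; exact invMk_inv _
      have r5 : (U * U') * (U * U') = U * U' := by
        rw [← mul_assoc, r4]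
      have r6 : Z' * Y = Z' * Z * P * Q' := by
        calc Z' * Y = Z' * Y * (Q * Q') := by rw [hq1, mul_one]
          _ = Z' * (Y * Q) * Q' := by simp only [mul_assoc]
          _ = Z' * (Z * P) * Q' := by rw [h1]
          _ = Z' * Z * P * Q' := by simp only [mul_assoc]
      have r7 : A * (Z' * Z) = A * Z' * (Z * A') * A := by
        calc A * (Z' * Z) = A * (A' * A) * (Z' * Z) := by
              rw [← mul_assoc A A' A, r1]
          _ = A * (A' * A * (Z' * Z)) := by simp only [mul_assoc]
          _ = A * (Z' * Z * (A' * A)) := by rw [r2]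
          _ = A * Z' * (Z * A') * A := by simp only [mul_assoc]
      calc U * U' * (A * Z') * Y = U * U' * (A * (Z' * Y)) := by simp only [mul_assoc]
        _ = U * U' * (A * (Z' * Z) * P * Q') := by rw [r6]; simp only [mul_assoc]
        _ = (U * U') * (A * Z' * (Z * A')) * (A * P * Q') := by rw [r7]; simp only [mul_assoc]
        _ = ((U * U') * (U * U')) * ((A * Z' * (Z * A'))) * (A * P * Q') := by rw [r5]
        _ = (U * U') * ((U * U') * (A * Z' * (Z * A'))) * (A * P * Q') := by
              simp only [mul_assoc]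
        _ = (U * U') * ((A * Z' * (Z * A')) * (U * U')) * (A * P * Q') := by rw [r3]
        _ = U * U' * (A * Z') * ((Z * A') * (U * U')) * (A * P * Q') := by
              simp only [mul_assoc]

/-- the inverse monoid is `E`-unitary -/
theorem isEUnitary (hG : Good rels θ) : IsEUnitary (SpecialInv rels) := by
  rintro e s he ⟨f, hf, hes⟩
  have h1 : toGrp rels s = 1 := by
    have he1 : toGrp rels e = 1 := by
      have := congrArg (toGrp rels) he
      rw [map_mul] at this
      exact mul_eq_left.mp this
    have hf1 : toGrp rels f = 1 := by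
      have := congrArg (toGrp rels) hf
      rw [map_mul] at this
      exact mul_eq_left.mp this
    have := congrArg (toGrp rels) hes
    rw [map_mul, he1, hf1, one_mul] at this
    exact this.symm
  obtain ⟨w, rfl⟩ := invMk_surj s
  obtain ⟨u, x, z, hw⟩ := hG.exists_form w
  have h2 := congrArg (toGrp rels) hw
  rw [h1] at h2
  simp only [map_mul, toGrp_mk, grpMk_invRev, mul_inv_cancel, one_mul] at h2
  have h3 : grpMk rels (pos x) = grpMk rels (pos z) := (mul_inv_eq_one.mp h2.symm)
  have h4 := hG.complete x z (hG.ev_of_grp h3)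
  rw [hw, h4, hG.pos_unit z, mul_one]
  rw [← mul_assoc, invMk_inv]

theorem ev_mem_of_right_unit (hG : Good rels θ) {w : Word X} {t : SpecialInv rels}
    (h : invMk rels w * t = 1) : ev θ w ∈ P0 θ := by
  obtain ⟨v, rfl⟩ := invMk_surj t
  rw [← invMk_append, ← invMk_nil] at h
  obtain ⟨_, h2⟩ := eq_imp_stays θ hG.one hG.stay h
  have h3 := (h2 1 (one_mem_P0 θ)).mpr trivial
  rw [stays_append] at h3
  have := stays_end θ w 1 (one_mem_P0 θ) h3.1
  rwa [one_mul] at this

theorem mem_prefMon_iff (hG : Good rels θ) (g : MaxGroup rels) :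
    g ∈ PrefMon rels ↔ ∃ x : List X, grpMk rels (pos x) = g := by
  constructor
  · rintro ⟨s, t, hst, rfl⟩
    obtain ⟨w, rfl⟩ := invMk_surj s
    obtain ⟨x, hx⟩ := hG.ev_mem_of_right_unit hst
    exact ⟨x, hG.grp_eq hx⟩
  · rintro ⟨x, rfl⟩
    exact ⟨invMk rels (pos x), _, hG.pos_unit x, rfl⟩

theorem rightReversible (hG : Good rels θ) : RightReversible (PrefMon rels) := by
  intro a ha b hb
  obtain ⟨x, rfl⟩ := (hG.mem_prefMon_iff a).mp ha
  obtain ⟨z, rfl⟩ := (hG.mem_prefMon_iff b).mp hb
  obtain ⟨c, ⟨p, hp⟩, d, ⟨q, hq⟩, hcd⟩ := hG.ore _ (pos_mem_P0 θ x) _ (pos_mem_P0 θ z)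
  refine ⟨grpMk rels (pos p), (hG.mem_prefMon_iff _).mpr ⟨p, rfl⟩,
    grpMk rels (pos q), (hG.mem_prefMon_iff _).mpr ⟨q, rfl⟩, ?_⟩
  rw [← grpMk_append, ← grpMk_append]
  apply hG.grp_eq
  rw [ev_append, ev_append, hp, hq, hcd]

/-- the word problem decides membership in `P0` -/
theorem mem_iff (hG : Good rels θ) (x z : List X) :
    ev θ (pos x ++ invRev (pos z)) ∈ P0 θ ↔
      invMk rels ((pos x ++ invRev (pos z)) ++ invRev (pos x ++ invRev (pos z)))
        = invMk rels [] := by
  constructor
  · rintro ⟨t, ht⟩
    have h1 : ev θ (pos x) = ev θ (pos (t ++ z)) := by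
      rw [ev_pos_append, ht, ev_append, ev_invRev, inv_mul_cancel_right]
    have h2 := hG.complete _ _ h1
    have h3 : invMk rels (pos x ++ invRev (pos z)) = invMk rels (pos t) := by
      rw [invMk_append, h2, pos_append, invMk_append, mul_assoc, hG.pos_unit, mul_one]
    rw [invMk_append, invMk_nil]
    generalize pos x ++ invRev (pos z) = w at *
    have h4 := hG.pos_unit t
    rw [← h3] at h4
    calc invMk rels w * invMk rels (invRev w)
        = invMk rels w * invMk rels (invRev w) * (invMk rels w * invMk rels (invRev (pos t))) := by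
          rw [h4, mul_one]
      _ = (invMk rels w * invMk rels (invRev w) * invMk rels w) * invMk rels (invRev (pos t)) := by
          simp only [mul_assoc]
      _ = 1 := by rw [invMk_inv, h4]
  · intro h
    rw [invMk_append, invMk_nil] at h
    exact hG.ev_mem_of_right_unit h

end Good

end Pool.Agent.MP_ff4305_al
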