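import Pool.Agent.Lib.MP_ff4305_al.Micro

/-!
A multi-stack suffix rewriting system with undecidable reachability.
-/

namespace Pool.Agent.MP_ff4305_al

open Turing StateTransition Turing.PartrecToTM2

section bits

/-- letters for bits -/
def bl (b : Bool) : Γ' := cond b Γ'.bit1 Γ'.bit0

theorem trPosNum_eq (p : PosNum) : trPosNum p = (Nat.bits (p : ℕ)).map bl := by
  induction p with
  | one =>
    have h : ((PosNum.one : PosNum) : ℕ) = 1 := rfl
    rw [h, Nat.one_bits]; rfl
  | bit0 p ih =>
    have h : ((PosNum.bit0 p : PosNum) : ℕ) = 2 * (p : ℕ) := by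
      rw [PosNum.cast_bit0]; ring
    have h0 : (p : ℕ) ≠ 0 := by
      have := PosNum.cast_pos (α := ℕ) p
      omega
    rw [h, Nat.bit0_bits _ h0, trPosNum, ih]; rfl
  | bit1 p ih =>
    have h : ((PosNum.bit1 p : PosNum) : ℕ) = 2 * (p : ℕ) + 1 := by
      rw [PosNum.cast_bit1]; ring
    rw [h, Nat.bit1_bits, trPosNum, ih]; rfl

theorem trNat_eq (n : ℕ) : trNat n = (Nat.bits n).map bl := by
  have h : ∀ m : Num, trNum m = (Nat.bits (m : ℕ)).map bl := by
    intro m
    cases m with
    | zero =>
      have : ((Num.zero : Num) : ℕ) = 0 := rfl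
      rw [this, Nat.zero_bits]; rfl
    | pos p => exact trPosNum_eq p
  rw [trNat, h, Num.to_of_nat]

theorem primrec_bits : Primrec Nat.bits := by
  have h1 : Primrec₂ (fun (_ : Unit) (n : ℕ) => Nat.bits n) := by
    refine Primrec.nat_strong_rec (fun (_ : Unit) (n : ℕ) => Nat.bits n)
      (g := fun _ l => if l.length = 0 then some [] else
        (l[l.length / 2]?).map (fun t => (decide (l.length % 2 = 1)) :: t)) ?_ ?_
    · have hlen : Primrec (fun p : Unit × List (List Bool) => p.2.length) :=
        Primrec.list_length.comp Primrec.snd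
      refine Primrec.ite (Primrec.eq.comp hlen (Primrec.const 0)) (Primrec.const (some [])) ?_
      refine Primrec.option_map
        (Primrec.list_getElem?.comp Primrec.snd (Primrec.nat_div.comp hlen (Primrec.const 2))) ?_
      refine Primrec.list_cons.comp ?_ Primrec.snd
      have h2 : Primrec (fun p : Unit × List (List Bool) => decide (p.2.length % 2 = 1)) :=
        (Primrec.eq.comp (Primrec.nat_mod.comp hlen (Primrec.const 2)) (Primrec.const 1)).decide
      exact h2.comp Primrec.fst
    · intro _ n
      rcases Nat.eq_zero_or_pos n with rfl | hn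
      · rfl
      · have hlen : ((List.range n).map fun n => Nat.bits n).length = n := by simp
        simp only [hlen, Nat.pos_iff_ne_zero.mp hn, if_false]
        have hlt : n / 2 < n := Nat.div_lt_self hn one_lt_two
        rw [List.getElem?_map, List.getElem?_range hlt]
        simp only [Option.map_some, Option.some.injEq]
        rcases Nat.mod_two_eq_zero_or_one n with h | h
        · have e : n = 2 * (n / 2) := by omega
          have h0 : n / 2 ≠ 0 := by omega
          have h3 := Nat.bit0_bits (n / 2) h0
          rw [← e] at h3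
          rw [h3, h]; rfl
        · have e : n = 2 * (n / 2) + 1 := by omega
          have h3 := Nat.bit1_bits (n / 2)
          rw [← e] at h3
          rw [h3, h]; rfl
  exact h1.comp (Primrec.const ()) Primrec.id

end bits

section relabel

variable {ι ι' A A' : Type} (eι : ι' ≃ ι) (φ : A → A')

/-- relabelling of a pair of configurations -/
def rmap (r : (ι → List A) × (ι → List A)) : (ι' → List A') × (ι' → List A') :=
  (fun i => (r.1 (eι i)).map φ, fun i => (r.2 (eι i)).map φ)

theorem map_inj_on {F : Set A} (hφ : Set.InjOn φ F) (l : List A) : ∀ l' : List A,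
    (∀ a ∈ l, a ∈ F) → (∀ a ∈ l', a ∈ F) → l.map φ = l'.map φ → l = l' := by
  induction l with
  | nil =>
    intro l' _ _ h
    have : l' = [] := by simpa using h.symm
    rw [this]
  | cons a l ih =>
    intro l' hl hl' h
    cases l' with
    | nil => simp at h
    | cons b l' =>
      simp only [List.map_cons, List.cons.injEq] at h
      have h1 := hφ (hl a (by simp)) (hl' b (by simp)) h.1
      have h2 := ih l' (fun a ha => hl a (by simp [ha])) (fun a ha => hl' a (by simp [ha])) h.2
      rw [h1, h2]

theorem relabel {F : Set A} (hφ : Set.InjOn φ F) (R : List ((ι → List A) × (ι → List A)))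
    (hR : ∀ r ∈ R, ∀ i, (∀ a ∈ r.1 i, a ∈ F) ∧ (∀ a ∈ r.2 i, a ∈ F)) (c fin : ι → List A)
    (hc : ∀ i, ∀ a ∈ c i, a ∈ F) (hfin : ∀ i, ∀ a ∈ fin i, a ∈ F) :
    Relation.ReflTransGen (MStep (R.map (rmap eι φ))) (fun i => (c (eι i)).map φ)
      (fun i => (fin (eι i)).map φ) ↔ Relation.ReflTransGen (MStep R) c fin := by
  constructor
  · intro h
    have : ∀ y, Relation.ReflTransGen (MStep (R.map (rmap eι φ))) (fun i => (c (eι i)).map φ) y →
        ∃ d : ι → List A, (∀ i, ∀ a ∈ d i, a ∈ F) ∧ y = (fun i => (d (eι i)).map φ) ∧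
          Relation.ReflTransGen (MStep R) c d := by
      intro y hy
      induction hy with
      | refl => exact ⟨c, hc, rfl, Relation.ReflTransGen.refl⟩
      | @tail y z _ h ih =>
        obtain ⟨d, hd, rfl, hd'⟩ := ih
        obtain ⟨r', hr', V', h1, h2⟩ := h
        obtain ⟨r, hr, rfl⟩ := List.mem_map.mp hr'
        have h3 : ∀ i : ι, ∃ V : List A, (∀ a ∈ V, a ∈ F) ∧ V.map φ = V' (eι.symm i) ∧
            d i = V ++ r.1 i := by
          intro i
          have h4 := h1 (eι.symm i)
          simp only [rmap, Equiv.apply_symm_apply] at h4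
          obtain ⟨l₁, l₂, e1, e2, e3⟩ := List.map_eq_append_iff.mp h4
          have e4 : l₂ = r.1 i := by
            apply map_inj_on φ hφ l₂ (r.1 i)
            · intro a ha
              exact hd i a (by rw [e1]; simp [ha])
            · exact (hR r hr i).1
            · exact e3
          refine ⟨l₁, ?_, e2, ?_⟩
          · intro a ha
            exact hd i a (by rw [e1]; simp [ha])
          · rw [e1, e4]
        choose V hV1 hV2 hV3 using h3
        refine ⟨fun i => V i ++ r.2 i, ?_, ?_, hd'.tail ⟨r, hr, V, hV3, fun _ => rfl⟩⟩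
        · intro i a ha
          rcases List.mem_append.mp ha with ha | ha
          · exact hV1 i a ha
          · exact (hR r hr i).2 a ha
        · funext i
          rw [h2 i, List.map_append, hV2, Equiv.symm_apply_apply]
          rfl
    obtain ⟨d, hd, e, hd'⟩ := this _ h
    have : fin = d := by
      funext i
      have h1 := congrFun e (eι.symm i)
      simp only [Equiv.apply_symm_apply] at h1
      exact map_inj_on φ hφ _ _ (hfin i) (hd i) h1
    rw [this]
    exact hd'
  · intro h
    refine Relation.ReflTransGen.lift (fun (d : ι → List A) (i : ι') => (d (eι i)).map φ) ?_ _ _ h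
    rintro a b ⟨r, hr, v, h1, h2⟩
    refine ⟨rmap eι φ r, List.mem_map_of_mem hr, fun i => (v (eι i)).map φ, ?_, ?_⟩
    · intro i
      show (a (eι i)).map φ = (v (eι i)).map φ ++ (r.1 (eι i)).map φ
      rw [h1, List.map_append]
    · intro i
      show (b (eι i)).map φ = (v (eι i)).map φ ++ (r.2 (eι i)).map φ
      rw [h2, List.map_append]

end relabel

section halting

/-- a computable function on a subset of the naturals with undecidable domain and only the value `0` -/
noncomputable def uu : ℕ →. ℕ := fun n =>
  (Nat.Partrec.Code.eval (Denumerable.ofNat Nat.Partrec.Code n) 0).map (fun _ => 0)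

theorem uu_partrec : Partrec uu := by
  have h : Partrec (fun n : ℕ => Nat.Partrec.Code.eval (Denumerable.ofNat Nat.Partrec.Code n) 0) :=
    Nat.Partrec.Code.eval_part.comp (Computable.ofNat _) (Computable.const 0)
  exact h.map (Computable.const 0).to₂

theorem uu_dom : ¬ ComputablePred (fun n => (uu n).Dom) := by
  intro h
  apply ComputablePred.halting_problem 0
  obtain ⟨f, hf, hfe⟩ := ComputablePred.computable_iff.mp h
  refine ComputablePred.computable_iff.mpr ⟨fun c => f (Encodable.encode c),
    hf.comp Computable.encode, ?_⟩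
  funext c
  have h1 := congrFun hfe (Encodable.encode c)
  rw [← h1]
  simp [uu]

theorem exists_tcode : ∃ c : ToPartrec.Code, ∀ n : ℕ, c.eval [n] = pure <$> uu n := by
  have h : @Nat.Partrec' 1 (fun v => uu v.head) := Nat.Partrec'.part_iff₁.mpr uu_partrec
  obtain ⟨c, hc⟩ := ToPartrec.Code.exists_code h
  exact ⟨c, fun n => hc (n ::ᵥ List.Vector.nil)⟩

end halting

section letters

variable {K : Type} [DecidableEq K] {Γ Λ σ : Type}

theorem rl_snd (M : Λ → St K Γ Λ σ) (q : St K Γ Λ σ) (v : σ) (t : Option Γ) :
    ∃ c', mu M ((some q, v), fun _ => t.toList) = some c' ∧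
      (rl M (some q) v t).2 none = [Letter.ctl c'.1.1 c'.1.2] := by
  cases q <;> cases t <;> exact ⟨_, rfl, rfl⟩

theorem rl_some (M : Λ → St K Γ Λ σ) (o : Option (St K Γ Λ σ)) (v : σ) (t : Option Γ) (k : K) :
    (∀ a ∈ (rl M o v t).1 (some k), a = Letter.bot ∨ ∃ b, a = Letter.sym b) ∧
    (∀ a ∈ (rl M o v t).2 (some k), a = Letter.bot ∨ ∃ b, a = Letter.sym b) := by
  have h : ∀ (k k' : K) (x : Letter K Γ Λ σ), (x = Letter.bot ∨ ∃ b, x = Letter.sym b) →
      ∀ a ∈ onl k [x] k', a = Letter.bot ∨ ∃ b, a = Letter.sym b := by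
    intro k k' x hx a ha
    unfold onl at ha
    split_ifs at ha
    · rw [List.mem_singleton] at ha
      rw [ha]; exact hx
    · simp at ha
  have h' : ∀ (k k' : K), ∀ a ∈ (onl k [] k' : List (Letter K Γ Λ σ)),
      a = Letter.bot ∨ ∃ b, a = Letter.sym b := by
    intro k k' a ha
    unfold onl at ha
    split_ifs at ha <;> simp at ha
  have h'' : ∀ a ∈ ([] : List (Letter K Γ Λ σ)), a = Letter.bot ∨ ∃ b, a = Letter.sym b := by
    intro a ha; simp at ha
  rcases o with _ | q
  · exact ⟨h'', h''⟩
  cases q with
  | push k' f q => exact ⟨h' _ _, h _ _ _ (Or.inr ⟨_, rfl⟩)⟩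
  | peek k' f q =>
    cases t with
    | none => exact ⟨h _ _ _ (Or.inl rfl), h _ _ _ (Or.inl rfl)⟩
    | some a => exact ⟨h _ _ _ (Or.inr ⟨_, rfl⟩), h _ _ _ (Or.inr ⟨_, rfl⟩)⟩
  | pop k' f q =>
    cases t with
    | none => exact ⟨h _ _ _ (Or.inl rfl), h _ _ _ (Or.inl rfl)⟩
    | some a => exact ⟨h _ _ _ (Or.inr ⟨_, rfl⟩), h' _ _⟩
  | load a q => exact ⟨h'', h''⟩
  | branch f q₁ q₂ => exact ⟨h'', h''⟩
  | goto f => exact ⟨h'', h''⟩
  | halt => exact ⟨h'', h''⟩

end letters

theorem exists_undecidable_mstep :
    ∃ (m q : ℕ) (R : List ((Fin m → List (Fin q)) × (Fin m → List (Fin q))))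
      (fin base : Fin m → List (Fin q)) (k0 : Fin m) (f : ℕ → List (Fin q)),
      Computable f ∧
      ¬ ComputablePred (fun n : ℕ =>
          Relation.ReflTransGen (MStep R) (Function.update base k0 (f n)) fin) := by
  classical
  obtain ⟨c, hc⟩ := exists_tcode
  let inst : Inhabited Λ' := ⟨trNormal c Cont'.halt⟩
  let M : Λ' → St K' Γ' Λ' (Option Γ') := tr
  let T : Finset Λ' := codeSupp c Cont'.halt
  have hT : TM2.Supports M T := tr_supports c Cont'.halt
  have hT0 : trNormal c Cont'.halt ∈ T := hT.1
  let R0 : List ((Option K' → List (Letter K' Γ' Λ' (Option Γ'))) ×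
      (Option K' → List (Letter K' Γ' Λ' (Option Γ')))) :=
    (List.product (TM2.stmts M T).toList (List.product (Finset.univ : Finset (Option Γ')).toList
      (Finset.univ : Finset (Option Γ')).toList)).map (fun p => rl M p.1 p.2.1 p.2.2)
  have hR0 : ∀ r, r ∈ R0 ↔ ∃ o ∈ TM2.stmts M T, ∃ v t, r = rl M o v t := by
    intro r
    simp only [R0, List.mem_map, Prod.exists]
    constructor
    · rintro ⟨o, v, t, h, rfl⟩
      rw [List.pair_mem_product, Finset.mem_toList] at h
      exact ⟨o, h.1, v, t, rfl⟩
    · rintro ⟨o, ho, v, t, rfl⟩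
      refine ⟨o, v, t, ?_, rfl⟩
      rw [List.pair_mem_product, List.pair_mem_product]
      simp [ho]
  let c0 : ℕ → MC K' Γ' Λ' (Option Γ') := fun n => menc M (init c [n])
  let cf : MC K' Γ' Λ' (Option Γ') := menc M (halt [0])
  have hc0 : ∀ n, c0 n = ((some (M (trNormal c Cont'.halt)), none),
      K'.elim (trList [n]) [] [] []) := fun n => rfl
  have hcf : cf = ((none, none), K'.elim (trList [0]) [] [] []) := rfl
  have hstart : some (M (trNormal c Cont'.halt)) ∈ TM2.stmts M T := by
    unfold TM2.stmts
    rw [Finset.some_mem_insertNone, Finset.mem_biUnion]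
    exact ⟨_, hT0, TM2.stmts₁_self⟩
  have hnone : none ∈ TM2.stmts M T := by
    unfold TM2.stmts
    exact Finset.none_mem_insertNone
  -- the machine
  have hmach : ∀ n, Reaches (mu M) (c0 n) cf ↔ (uu n).Dom := by
    intro n
    have h1 : StateTransition.eval (mu M) (c0 n)
        = (StateTransition.eval (TM2.step M) (init c [n])).map (menc M) :=
      tr_eval' _ _ _ (mu_respects M) _
    have h2 : StateTransition.eval (TM2.step M) (init c [n]) = (c.eval [n]).map halt :=
      PartrecToTM2.tr_eval c [n]
    have h2' : c.eval [n] = (uu n).map (fun x => [x]) := hc n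
    have h3 : cf ∈ StateTransition.eval (mu M) (c0 n) ↔ Reaches (mu M) (c0 n) cf := by
      rw [mem_eval]
      constructor
      · exact fun h => h.1
      · exact fun h => ⟨h, rfl⟩
    rw [← h3, h1, h2, h2']
    constructor
    · intro h
      obtain ⟨_, h4, _⟩ := (Part.mem_map_iff _).mp h
      obtain ⟨_, h5, _⟩ := (Part.mem_map_iff _).mp h4
      obtain ⟨a, h6, _⟩ := (Part.mem_map_iff _).mp h5
      exact Part.dom_iff_mem.mpr ⟨a, h6⟩
    · intro h
      have h4 : (0 : ℕ) ∈ uu n := by
        have h' : (Nat.Partrec.Code.eval (Denumerable.ofNat Nat.Partrec.Code n) 0).Dom := h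
        exact (Part.mem_map_iff _).mpr ⟨_, Part.get_mem h', rfl⟩
      have h5 : [0] ∈ (uu n).map (fun x => [x]) := (Part.mem_map_iff _).mpr ⟨0, h4, rfl⟩
      exact (Part.mem_map_iff _).mpr ⟨halt [0], (Part.mem_map_iff _).mpr ⟨[0], h5, rfl⟩, rfl⟩
  have hreach : ∀ n, Relation.ReflTransGen (MStep R0) (senc (c0 n)) (senc cf) ↔ (uu n).Dom := by
    intro n
    rw [← hmach n]
    exact (reaches_iff M T hT R0 hR0 (c0 n) cf hstart).symm
  -- the finite alphabet
  let F : Set (Letter K' Γ' Λ' (Option Γ')) := {x | match x with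
    | .ctl o _ => o ∈ TM2.stmts M T
    | .sym _ => True
    | .bot => True}
  have hFfin : Finite F := by
    have h1 : F ⊆ (Set.range (fun p : {o // o ∈ TM2.stmts M T} × Option Γ' =>
        (Letter.ctl p.1.1 p.2 : Letter K' Γ' Λ' (Option Γ')))) ∪
        (Set.range (fun a : Γ' => (Letter.sym a : Letter K' Γ' Λ' (Option Γ')))) ∪ {Letter.bot} := by
      intro x hx
      cases x with
      | ctl o v => exact Or.inl (Or.inl ⟨(⟨o, hx⟩, v), rfl⟩)
      | sym a => exact Or.inl (Or.inr ⟨a, rfl⟩)
      | bot => exact Or.inr rfl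
    exact ((((Set.finite_range _).union (Set.finite_range _)).union
      (Set.finite_singleton _)).subset h1).to_subtype
  obtain ⟨q, ⟨e⟩⟩ := Finite.exists_equiv_fin F
  have hbot : (Letter.bot : Letter K' Γ' Λ' (Option Γ')) ∈ F := trivial
  let φ : Letter K' Γ' Λ' (Option Γ') → Fin q := fun x =>
    if h : x ∈ F then e ⟨x, h⟩ else e ⟨Letter.bot, hbot⟩
  have hφ : Set.InjOn φ F := by
    intro x hx y hy h
    simp only [φ, dif_pos hx, dif_pos hy] at h
    have := e.injective h
    exact congrArg Subtype.val this
  have hKfin : Finite K' := by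
    let g : K' → Fin 4 := fun k => match k with
      | K'.main => 0
      | K'.rev => 1
      | K'.aux => 2
      | K'.stack => 3
    apply Finite.of_injective g
    intro a b h
    cases a <;> cases b <;> simp_all [g]
  obtain ⟨m, ⟨eι'⟩⟩ := Finite.exists_equiv_fin (Option K')
  let eι : Fin m ≃ Option K' := eι'.symm
  have hRF : ∀ r ∈ R0, ∀ i, (∀ a ∈ r.1 i, a ∈ F) ∧ (∀ a ∈ r.2 i, a ∈ F) := by
    intro r hr i
    obtain ⟨o, ho, v, t, rfl⟩ := (hR0 r).mp hr
    cases i with
    | none =>
      constructor
      · rw [rl_fst_none]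
        intro a ha
        rw [List.mem_singleton] at ha
        rw [ha]; exact ho
      · rcases o with _ | q'
        · intro a ha
          have h1 : a = Letter.ctl none v := by simpa [rl, side] using ha
          rw [h1]; exact hnone
        · obtain ⟨c', h1, h2⟩ := rl_snd M q' v t
          rw [h2]
          intro a ha
          rw [List.mem_singleton] at ha
          rw [ha]
          exact mu_supports M T hT _ c' ho h1
    | some k =>
      have h1 := rl_some M o v t k
      constructor
      · intro a ha
        rcases h1.1 a ha with rfl | ⟨b, rfl⟩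
        · trivial
        · trivial
      · intro a ha
        rcases h1.2 a ha with rfl | ⟨b, rfl⟩
        · trivial
        · trivial
  have hcont : ∀ l : List Γ', ∀ a ∈ (cont l : List (Letter K' Γ' Λ' (Option Γ'))), a ∈ F := by
    intro l a ha
    simp only [cont, List.mem_cons, List.mem_map] at ha
    rcases ha with rfl | ⟨b, _, rfl⟩
    · trivial
    · trivial
  have hsenc : ∀ d : MC K' Γ' Λ' (Option Γ'), d.1.1 ∈ TM2.stmts M T → ∀ i, ∀ a ∈ senc d i,
      a ∈ F := by
    intro d hd i a ha
    cases i with
    | none =>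
      have h1 : a = Letter.ctl d.1.1 d.1.2 := by simpa [senc] using ha
      rw [h1]; exact hd
    | some k => exact hcont _ a ha
  let f : ℕ → List (Fin q) := fun n => (senc (c0 n) (some K'.main)).map φ
  let base : Fin m → List (Fin q) := fun i => (senc (c0 0) (eι i)).map φ
  let k0 : Fin m := eι.symm (some K'.main)
  have hupd : ∀ n, Function.update base k0 (f n) = fun i => (senc (c0 n) (eι i)).map φ := by
    intro n
    funext i
    by_cases h : i = k0
    · subst h
      rw [Function.update_self]
      simp only [k0, Equiv.apply_symm_apply, f]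
    · rw [Function.update_of_ne h]
      have h1 : eι i ≠ some K'.main := by
        intro h2
        apply h
        rw [← Equiv.symm_apply_apply eι i, h2]
      show (senc (c0 0) (eι i)).map φ = (senc (c0 n) (eι i)).map φ
      congr 1
      generalize eι i = j at h1
      rcases j with _ | k
      · rfl
      · cases k with
        | main => exact absurd rfl h1
        | rev => rfl
        | aux => rfl
        | stack => rfl
  refine ⟨m, q, R0.map (rmap eι φ), fun i => (senc cf (eι i)).map φ, base, k0, f, ?_, ?_⟩
  · -- computability of `f`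
    have h1 : ∀ n, f n = φ Letter.bot :: φ (Letter.sym Γ'.cons) ::
        ((Nat.bits n).map (fun b => φ (Letter.sym (bl b)))).reverse := by
      intro n
      show ((cont (trList [n]) : List (Letter K' Γ' Λ' (Option Γ'))).map φ) = _
      rw [cont, trList, trList, trNat_eq, List.reverse_append]
      simp [List.map_reverse]
    have h2 : Primrec (fun n : ℕ => φ Letter.bot :: φ (Letter.sym Γ'.cons) ::
        ((Nat.bits n).map (fun b => φ (Letter.sym (bl b)))).reverse) := by
      refine Primrec.list_cons.comp (Primrec.const _) (Primrec.list_cons.comp (Primrec.const _)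
        (Primrec.list_reverse.comp (Primrec.list_map primrec_bits ?_)))
      exact (Primrec.dom_finite (fun b : Bool => φ (Letter.sym (bl b)))).comp₂ Primrec₂.right
    exact h2.to_comp.of_eq fun n => (h1 n).symm
  · intro h
    apply uu_dom
    refine h.of_eq ?_
    intro n
    rw [hupd, relabel eι φ hφ R0 hRF (senc (c0 n)) (senc cf) (hsenc _ hstart) (hsenc _ hnone)]
    exact hreach n

end Pool.Agent.MP_ff4305_al
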